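import Mathlib
set_option autoImplicit false

/-!
A tensor and a best approximation by a product of unit vectors.
-/

namespace Pool.Agent.J4H54.CV

open Finset

variable {n : ℕ} {r : Fin (n + 1) → ℕ}

/-- the multilinear form of a tensor -/
def TT (S : (∀ l, Fin (r l + 1)) → ℝ) (x : ∀ l, Fin (r l + 1) → ℝ) : ℝ := ∑ i, S i * ∏ l, x l (i l)

/-- the length of a vector -/
noncomputable def nn {m : ℕ} (x : Fin m → ℝ) : ℝ := Real.sqrt (∑ i, x i ^ 2)

theorem nn_nonneg {m : ℕ} (x : Fin m → ℝ) : 0 ≤ nn x := Real.sqrt_nonneg _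

theorem nn_sq {m : ℕ} (x : Fin m → ℝ) : nn x ^ 2 = ∑ i, x i ^ 2 :=
  Real.sq_sqrt (sum_nonneg fun _ _ => sq_nonneg _)

theorem nn_eq_zero {m : ℕ} {x : Fin m → ℝ} (h : nn x = 0) (i : Fin m) : x i = 0 := by
  have h1 := nn_sq x
  rw [h, zero_pow two_ne_zero] at h1
  have h2 := (sum_eq_zero_iff_of_nonneg fun i _ => sq_nonneg (x i)).1 h1.symm i (mem_univ i)
  exact pow_eq_zero_iff two_ne_zero |>.1 h2

variable (S : (∀ l, Fin (r l + 1)) → ℝ)

theorem TT_upd (x : ∀ l, Fin (r l + 1) → ℝ) (l : Fin (n + 1)) (v : Fin (r l + 1) → ℝ) :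
    TT S (Function.update x l v) =
      ∑ j, v j * ∑ i, if i l = j then S i * ∏ l' ∈ univ.erase l, x l' (i l') else 0 := by
  unfold TT
  simp only [mul_sum]
  rw [sum_comm]
  refine sum_congr rfl fun i _ => ?_
  simp only [mul_ite, mul_zero]
  rw [sum_ite_eq, if_pos (mem_univ _), ← mul_prod_erase univ _ (mem_univ l),
    Function.update_self]
  have h1 : ∏ l' ∈ univ.erase l, Function.update x l v l' (i l') =
      ∏ l' ∈ univ.erase l, x l' (i l') :=
    prod_congr rfl fun l' hl' => by rw [Function.update_of_ne (ne_of_mem_erase hl')]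
  rw [h1]
  ring

theorem TT_smul (x : ∀ l, Fin (r l + 1) → ℝ) (a : Fin (n + 1) → ℝ) :
    TT S (fun l i => a l * x l i) = (∏ l, a l) * TT S x := by
  unfold TT
  rw [mul_sum]
  refine sum_congr rfl fun i _ => ?_
  rw [prod_mul_distrib]
  ring

theorem continuous_TT : Continuous fun x : ∀ l, Fin (r l + 1) → ℝ => TT S x := by
  unfold TT
  refine continuous_finsetSum _ fun i _ => continuous_const.mul
    (continuous_finsetProd _ fun l _ => ?_)
  exact (continuous_apply (i l)).comp (continuous_apply l)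

variable {S}

/-- **The best approximation.** -/
theorem exists_best (hS : S ≠ 0) : ∃ (c : ∀ l, Fin (r l + 1) → ℝ), (∀ l, ∑ i, c l i ^ 2 = 1) ∧
    TT S c ≠ 0 ∧ ∀ x, |TT S x| ≤ |TT S c| * ∏ l, nn (x l) := by
  set K : Set (∀ l, Fin (r l + 1) → ℝ) := {x | ∀ l, ∑ i, x l i ^ 2 = 1} with hK
  have hKc : IsCompact K := by
    have h1 : IsCompact (Set.Icc (fun _ _ => -1 : ∀ l, Fin (r l + 1) → ℝ) fun _ _ => 1) :=
      isCompact_Icc
    refine h1.of_isClosed_subset ?_ fun x hx => ?_
    · rw [hK]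
      simp only [Set.ofPred_forall]
      refine isClosed_iInter fun l => isClosed_eq ?_ continuous_const
      refine continuous_finsetSum _ fun i _ => ?_
      exact ((continuous_apply i).comp (continuous_apply l)).pow 2
    · have h2 : ∀ l i, x l i ^ 2 ≤ 1 := fun l i => by
        rw [← hx l]
        exact single_le_sum (f := fun i => x l i ^ 2) (fun i _ => sq_nonneg _) (mem_univ i)
      refine ⟨fun l i => ?_, fun l i => ?_⟩
      · exact (abs_le_one_iff_mul_self_le_one.2 (by rw [← sq]; exact h2 l i) |> abs_le.1).1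
      · exact (abs_le_one_iff_mul_self_le_one.2 (by rw [← sq]; exact h2 l i) |> abs_le.1).2
  have hsingle : ∀ i : (∀ l, Fin (r l + 1)), (fun l => Pi.single (i l) (1 : ℝ) :
      ∀ l, Fin (r l + 1) → ℝ) ∈ K := by
    intro i l
    have : ∀ j, (Pi.single (i l) (1 : ℝ) : Fin (r l + 1) → ℝ) j ^ 2 = if i l = j then 1 else 0 := by
      intro j
      by_cases h : i l = j
      · rw [← h]
        simp
      · rw [Pi.single_eq_of_ne (Ne.symm h), if_neg h]
        norm_num
    simp only [this]
    rw [sum_ite_eq, if_pos (mem_univ _)]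
  obtain ⟨c, hc, hmax⟩ := hKc.exists_isMaxOn ⟨_, hsingle fun _ => 0⟩
    ((continuous_TT S).abs.continuousOn)
  have hmax' : ∀ x ∈ K, |TT S x| ≤ |TT S c| := fun x hx => hmax hx
  refine ⟨c, hc, fun h0 => ?_, fun x => ?_⟩
  · apply hS
    funext i
    have h1 := hmax' _ (hsingle i)
    rw [h0, abs_zero] at h1
    have h2 : TT S (fun l => Pi.single (i l) (1 : ℝ)) = S i := by
      unfold TT
      rw [sum_eq_single i]
      · have : ∏ l, (Pi.single (i l) (1 : ℝ) : Fin (r l + 1) → ℝ) (i l) = 1 :=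
          prod_eq_one fun l _ => Pi.single_eq_same _ _
        rw [this, mul_one]
      · intro j _ hj
        obtain ⟨l, hl⟩ := Function.ne_iff.1 hj
        rw [prod_eq_zero (mem_univ l) (Pi.single_eq_of_ne hl _), mul_zero]
      · intro h
        exact absurd (mem_univ _) h
    rw [h2] at h1
    exact abs_eq_zero.1 (le_antisymm h1 (abs_nonneg _))
  · by_cases h0 : ∃ l, nn (x l) = 0
    · obtain ⟨l, hl⟩ := h0
      have h1 : TT S x = 0 := by
        unfold TT
        refine sum_eq_zero fun i _ => ?_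
        rw [prod_eq_zero (mem_univ l) (nn_eq_zero hl _), mul_zero]
      rw [h1, abs_zero]
      exact mul_nonneg (abs_nonneg _) (prod_nonneg fun l _ => nn_nonneg _)
    · push Not at h0
      have hpos : ∀ l, 0 < nn (x l) := fun l => lt_of_le_of_ne (nn_nonneg _) (Ne.symm (h0 l))
      have h1 := hmax' (fun l i => (nn (x l))⁻¹ * x l i) (fun l => by
        simp only [mul_pow]
        rw [← mul_sum, ← nn_sq, inv_pow, inv_mul_cancel₀ (pow_ne_zero 2 (h0 l))])
      have h2 := TT_smul S x (fun l => (nn (x l))⁻¹)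
      rw [h2, abs_mul, abs_prod] at h1
      have h3 : ∀ l, |(nn (x l))⁻¹| = (nn (x l))⁻¹ := fun l => abs_of_pos (inv_pos.2 (hpos l))
      simp only [h3] at h1
      rw [prod_inv_distrib, inv_mul_le_iff₀ (prod_pos fun l _ => hpos l)] at h1
      linarith

section

variable {c : ∀ l, Fin (r l + 1) → ℝ} (hc : ∀ l, ∑ i, c l i ^ 2 = 1)
  (hb : ∀ x, |TT S x| ≤ |TT S c| * ∏ l, nn (x l))

include hc hb

/-- stationarity -/
theorem best_upd (l : Fin (n + 1)) (v : Fin (r l + 1) → ℝ) :
    TT S (Function.update c l v) = TT S c * ∑ j, v j * c l j := by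
  set u : Fin (r l + 1) → ℝ := fun j =>
    ∑ i, if i l = j then S i * ∏ l' ∈ univ.erase l, c l' (i l') else 0 with hu
  have h1 : ∀ v, TT S (Function.update c l v) = ∑ j, v j * u j := fun v => TT_upd S c l v
  have hcn : ∀ l, nn (c l) = 1 := fun l => by
    unfold nn
    rw [hc, Real.sqrt_one]
  have h2 : ∀ v, |∑ j, v j * u j| ≤ |TT S c| * nn v := by
    intro v
    rw [← h1]
    refine (hb _).trans (le_of_eq ?_)
    congr 1
    rw [← mul_prod_erase univ _ (mem_univ l), Function.update_self, prod_eq_one, mul_one]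
    intro l' hl'
    rw [Function.update_of_ne (ne_of_mem_erase hl'), hcn]
  have h3 : ∑ j, c l j * u j = TT S c := by
    rw [← h1, Function.update_eq_self]
  have h4 : ∑ j, u j ^ 2 ≤ TT S c ^ 2 := by
    have h5 := h2 u
    have h6 : ∑ j, u j * u j = nn u ^ 2 := by
      rw [nn_sq]
      exact sum_congr rfl fun j _ => (sq _).symm
    rw [h6, abs_of_nonneg (sq_nonneg _)] at h5
    rw [← nn_sq]
    have h7 : nn u ≤ |TT S c| := by
      by_contra hcon
      rw [not_le] at hcon
      have := nn_nonneg u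
      nlinarith [abs_nonneg (TT S c)]
    rw [← sq_abs (TT S c)]
    exact pow_le_pow_left₀ (nn_nonneg u) h7 2
  have h5 : ∑ j, (u j - TT S c * c l j) ^ 2 ≤ 0 := by
    have h6 : ∀ j, (u j - TT S c * c l j) ^ 2 = u j ^ 2 - 2 * TT S c * (c l j * u j) +
        TT S c ^ 2 * c l j ^ 2 := fun j => by ring
    simp only [h6, sum_add_distrib, sum_sub_distrib, ← mul_sum]
    rw [h3, hc]
    nlinarith
  have h6 : ∀ j, u j = TT S c * c l j := by
    intro j
    have h7 := (sum_eq_zero_iff_of_nonneg fun j _ => sq_nonneg (u j - TT S c * c l j)).1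
      (le_antisymm h5 (sum_nonneg fun j _ => sq_nonneg _)) j (mem_univ j)
    linarith [pow_eq_zero_iff two_ne_zero |>.1 h7]
  rw [h1, mul_sum]
  refine sum_congr rfl fun j _ => ?_
  rw [h6]
  ring

theorem best_sum (h0 : TT S c ≠ 0) (hs : ∀ k l, ∑ κ, S (Function.update k l κ) = 0)
    (l : Fin (n + 1)) : ∑ j, c l j = 0 := by
  have h1 := best_upd hc hb l (fun _ => 1)
  simp only [one_mul] at h1
  have h2 : TT S (Function.update c l fun _ => 1) = 0 := by
    set F : (∀ l, Fin (r l + 1)) → ℝ := fun i =>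
      ∏ l', Function.update c l (fun _ => 1) l' (i l') with hF
    have hFu : ∀ i κ, F (Function.update i l κ) = F i := by
      intro i κ
      simp only [hF]
      refine prod_congr rfl fun l' _ => ?_
      by_cases h : l' = l
      · subst h
        rw [Function.update_self]
      · exact congrArg (Function.update c l (fun _ => 1) l') (Function.update_of_ne h κ i)
    have h3 : ∑ i, ∑ κ, S (Function.update i l κ) * F i = 0 := by
      refine sum_eq_zero fun i _ => ?_
      rw [← sum_mul, hs, zero_mul]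
    have h4 : ∑ i, ∑ κ, S (Function.update i l κ) * F i =
        ∑ i, ∑ _κ : Fin (r l + 1), S i * F i := by
      rw [← Finset.sum_product', ← Finset.sum_product', univ_product_univ]
      refine Finset.sum_bij' (fun p _ => (Function.update p.1 l p.2, p.1 l))
        (fun p _ => (Function.update p.1 l p.2, p.1 l)) (fun _ _ => mem_univ _)
        (fun _ _ => mem_univ _) (fun p _ => ?_) (fun p _ => ?_) (fun p _ => ?_)
      · simp
      · simp
      · simp only [hFu]
    rw [h3] at h4
    simp only [sum_const, card_univ, Fintype.card_fin, nsmul_eq_mul] at h4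
    rw [← mul_sum] at h4
    have h5 : ((r l + 1 : ℕ) : ℝ) ≠ 0 := by positivity
    have h6 := (mul_eq_zero.1 h4.symm).resolve_left h5
    exact h6
  rw [h2] at h1
  exact (mul_eq_zero.1 h1.symm).resolve_left h0

/-- complex vectors -/
theorem best_cplx (x : ∀ l, Fin (r l + 1) → ℂ) {B : Fin (n + 1) → ℝ}
    (hB : ∀ l, ∑ i, ‖x l i‖ ^ 2 ≤ B l ^ 2) (hB0 : ∀ l, 0 ≤ B l) :
    ‖∑ i, (S i : ℂ) * ∏ l, x l (i l)‖ ≤ |TT S c| * ∏ l, (Real.sqrt 2 * B l) := by
  have e : ∀ i : (∀ l, Fin (r l + 1)), ∏ l, x l (i l) = ∑ A : Finset (Fin (n + 1)),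
      Complex.I ^ (Aᶜ.card) * ((∏ l, (if l ∈ A then (x l (i l)).re else (x l (i l)).im) : ℝ) : ℂ) := by
    intro i
    have h1 : ∀ l, x l (i l) = ((x l (i l)).re : ℂ) + Complex.I * ((x l (i l)).im : ℂ) := by
      intro l
      rw [mul_comm]
      exact (Complex.re_add_im _).symm
    rw [prod_congr rfl fun l _ => h1 l, Fintype.prod_add]
    refine sum_congr rfl fun A _ => ?_
    rw [prod_mul_distrib, prod_const, ← prod_mul_prod_compl A fun l =>
      (if l ∈ A then (x l (i l)).re else (x l (i l)).im)]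
    rw [prod_congr rfl fun l hl => if_pos hl,
      prod_congr (s₁ := Aᶜ) rfl fun l hl => if_neg (mem_compl.1 hl)]
    push_cast
    ring
  have h1 : ∑ i, (S i : ℂ) * ∏ l, x l (i l) = ∑ A : Finset (Fin (n + 1)),
      Complex.I ^ (Aᶜ.card) * ((TT S fun l j => if l ∈ A then (x l j).re else (x l j).im : ℝ) : ℂ) := by
    simp only [e, mul_sum]
    rw [sum_comm]
    refine sum_congr rfl fun A _ => ?_
    unfold TT
    push_cast
    rw [mul_sum]
    refine sum_congr rfl fun i _ => ?_
    ring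
  rw [h1]
  refine (norm_sum_le _ _).trans ?_
  have h2 : ∀ A : Finset (Fin (n + 1)), ‖Complex.I ^ (Aᶜ.card) *
      ((TT S fun l j => if l ∈ A then (x l j).re else (x l j).im : ℝ) : ℂ)‖ ≤
      |TT S c| * ((∏ l ∈ A, nn fun j => (x l j).re) * ∏ l ∈ Aᶜ, nn fun j => (x l j).im) := by
    intro A
    rw [norm_mul, norm_pow, Complex.norm_I, one_pow, one_mul, Complex.norm_real, Real.norm_eq_abs]
    refine (hb _).trans (le_of_eq ?_)
    congr 1
    rw [← prod_mul_prod_compl A]
    congr 1
    · refine prod_congr rfl fun l hl => ?_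
      simp only [if_pos hl]
    · refine prod_congr rfl fun l hl => ?_
      simp only [if_neg (mem_compl.1 hl)]
  refine (sum_le_sum fun A _ => h2 A).trans ?_
  rw [← mul_sum, ← Fintype.prod_add]
  refine mul_le_mul_of_nonneg_left (prod_le_prod (fun l _ => add_nonneg (nn_nonneg _)
    (nn_nonneg _)) fun l _ => ?_) (abs_nonneg _)
  set u := nn fun j => (x l j).re with hu
  set v := nn fun j => (x l j).im with hv
  have h3 : u ^ 2 + v ^ 2 ≤ B l ^ 2 := by
    rw [hu, hv, nn_sq, nn_sq, ← sum_add_distrib]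
    refine le_trans (le_of_eq (sum_congr rfl fun j _ => ?_)) (hB l)
    rw [← Complex.normSq_eq_norm_sq, Complex.normSq_apply]
    ring
  have h4 : (u + v) ^ 2 ≤ (Real.sqrt 2 * B l) ^ 2 := by
    rw [mul_pow, Real.sq_sqrt (by norm_num)]
    nlinarith [sq_nonneg (u - v)]
  exact le_of_sq_le_sq h4 (mul_nonneg (Real.sqrt_nonneg _) (hB0 l))

end

end Pool.Agent.J4H54.CV
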