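import Pool.Agent.J4H54.CV.Loop
import Pool.Agent.J4H54.CV.Alg
import Pool.Agent.J4H54.KT.Core
set_option autoImplicit false

/-!
The regulators of a combination of tori and a product of combinations of the symbols.
-/

namespace Pool.Agent.J4H54.CV

open MeasureTheory Finset

open Pool.Agent.TH826.MK (pairing)

open Pool.Agent.J4H54.KT (Lo ld qt pt tf J Fn dev sg om co J_eq pairing_tf continuous_J sg_om
  abs_om)

open Pool.Agent.TH826.MK (tl)

variable {n : ℕ} {r : Fin (n + 1) → ℕ} {S : (∀ l, Fin (r l + 1)) → ℝ}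

theorem TT_upd_smul (c : ∀ l, Fin (r l + 1) → ℝ) (a : Fin (n + 1) → ℝ) (l : Fin (n + 1))
    (v : Fin (r l + 1) → ℝ) : TT S (Function.update (fun l i => a l * c l i) l v) =
      (∏ l' ∈ univ.erase l, a l') * TT S (Function.update c l v) := by
  rw [TT_upd, TT_upd]
  simp only [prod_mul_distrib]
  rw [mul_sum]
  refine sum_congr rfl fun j _ => ?_
  have h1 : ∀ i : (∀ l, Fin (r l + 1)), (if i l = j then S i *
      ((∏ l' ∈ univ.erase l, a l') * ∏ l' ∈ univ.erase l, c l' (i l')) else 0) =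
      (∏ l' ∈ univ.erase l, a l') *
        (if i l = j then S i * ∏ l' ∈ univ.erase l, c l' (i l') else 0) := by
    intro i
    split_ifs
    · ring
    · ring
  simp only [h1, ← mul_sum]
  ring

/-- The product of the sums. -/
theorem J_sum {D : ∀ l, Fin (r l + 1) → ℝ → ℝ → ℂ} (hD : ∀ l κ, Fn (D l κ))
    (c : ∀ l, Fin (r l + 1) → ℝ) : ∑ j : (∀ l, Fin (r l + 1)), ((∏ l, c l (j l) : ℝ) : ℂ) *
      J (fun l => D l (j l)) = J (fun l t x => ∑ κ, (c l κ : ℂ) * D l κ t x) := by
  unfold J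
  have h1 : ∀ y : Fin (n + 1) → ℝ, ∏ l, ∑ κ, (c l κ : ℂ) * D l κ (y 0) (co (tl n y) l) =
      ∑ j : (∀ l, Fin (r l + 1)), ((∏ l, c l (j l) : ℝ) : ℂ) *
        ∏ l, D l (j l) (y 0) (co (tl n y) l) := by
    intro y
    rw [prod_univ_sum, Fintype.piFinset_univ]
    refine sum_congr rfl fun j _ => ?_
    rw [prod_mul_distrib]
    push_cast
    rfl
  simp only [h1]
  rw [integral_finsetSum]
  · refine sum_congr rfl fun j _ => ?_
    rw [integral_const_mul]
  · intro j _
    exact (continuous_const.mul (continuous_J fun l => hD l (j l))).continuousOn.integrableOn_compact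
      isCompact_Icc

theorem fn_sum {m : ℕ} {D : Fin m → ℝ → ℝ → ℂ} (hD : ∀ κ, Fn (D κ)) (c : Fin m → ℝ) :
    Fn fun t x => ∑ κ, (c κ : ℂ) * D κ t x :=
  ⟨continuous_finsetSum _ fun κ _ => continuous_const.mul (hD κ).cont, fun t x => by
    simp only [(hD _).per]⟩

/-- The combination of the integrals. -/
theorem norm_sum_J {c : ∀ l, Fin (r l + 1) → ℝ} (hc : ∀ l, ∑ i, c l i ^ 2 = 1)
    (hb : ∀ x, |TT S x| ≤ |TT S c| * ∏ l, nn (x l)) {H : ∀ l, Fin (r l + 1) → ℝ → ℝ → ℂ}
    (hH : ∀ l a, Fn (H l a)) {B : Fin (n + 1) → ℝ} (hB0 : ∀ l, 0 ≤ B l)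
    (hB : ∀ l, ∀ t ∈ Set.Icc (0 : ℝ) 1, ∀ x, ∑ a, ‖H l a t x‖ ^ 2 ≤ B l ^ 2) :
    ‖∑ i, (S i : ℂ) * J (fun l => H l (i l))‖ ≤ |TT S c| * ∏ l, (Real.sqrt 2 * B l) := by
  have h1 : ∑ i, (S i : ℂ) * J (fun l => H l (i l)) = ∫ y in Set.Icc (0 : Fin (n + 1) → ℝ) 1,
      ∑ i, (S i : ℂ) * ∏ l, H l (i l) (y 0) (co (tl n y) l) := by
    rw [integral_finsetSum]
    · refine sum_congr rfl fun i _ => ?_
      rw [integral_const_mul]
      rfl
    · intro i _
      exact (continuous_const.mul
        (continuous_J fun l => hH l (i l))).continuousOn.integrableOn_compact isCompact_Icc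
  rw [h1]
  have h2 : ‖∫ y in Set.Icc (0 : Fin (n + 1) → ℝ) 1,
      ∑ i, (S i : ℂ) * ∏ l, H l (i l) (y 0) (co (tl n y) l)‖ ≤
      (|TT S c| * ∏ l, (Real.sqrt 2 * B l)) *
        (volume : Measure (Fin (n + 1) → ℝ)).real (Set.Icc 0 1) := by
    refine norm_setIntegral_le_of_norm_le_const (isCompact_Icc.measure_lt_top) fun y hy => ?_
    exact best_cplx hc hb (fun l a => H l a (y 0) (co (tl n y) l))
      (fun l => hB l (y 0) ⟨hy.1 0, hy.2 0⟩ _) hB0
  have hv : (volume : Measure (Fin (n + 1) → ℝ)).real (Set.Icc 0 1) = 1 := by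
    rw [measureReal_def, Real.volume_Icc_pi]
    simp
  rw [hv, mul_one] at h2
  exact h2

section

variable {β : ∀ l, Fin (r l + 1) → ℂ} {R : Fin (n + 1) → ℝ} {V : Fin (n + 1) → Set ℂ}
  {x : ∀ l, Fin (r l + 1) → ℂ → ℂ} {E : ∀ l, Fin (r l + 1) → Fin (r l + 1) → ℂ → ℂ}
  (h : ∀ l, Fac (β l) (R l) (V l) (x l) (E l)) {W : Fin (n + 1) → ℝ → ℂ}
  {ρ : Fin (n + 1) → ℝ} (hW : ∀ l, Wp (W l) (ρ l) (om l)) (hρ : ∀ l, ρ l ≤ R l)
  {y : Fin (n + 1) → ℝ} (hy : ∀ l, (ρ l / R l) ^ 2 ≤ y l) (hy1 : ∀ l, y l < 1)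

/-- the regulator integral of the functions `x_l - β_{l, j_l}` on a torus -/
noncomputable def PR (β : ∀ l, Fin (r l + 1) → ℂ) (x : ∀ l, Fin (r l + 1) → ℂ → ℂ)
    (W : Fin (n + 1) → ℝ → ℂ) (i j : ∀ l, Fin (r l + 1)) : ℝ :=
  pairing (tf fun l s => x l (i l) (W l s) - β l (j l))

include h hW hρ hy hy1

theorem main_est {c : ∀ l, Fin (r l + 1) → ℝ} (hc : ∀ l, ∑ i, c l i ^ 2 = 1)
    (hb : ∀ x, |TT S x| ≤ |TT S c| * ∏ l, nn (x l)) (hc0 : ∀ l, ∑ i, c l i = 0) :
    |∑ i, S i * ∑ j : (∀ l, Fin (r l + 1)), (∏ l, c l (j l)) * PR β x W i j +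
      (2 * Real.pi) ^ n * TT S c * ∑ l, QF (E l) (ρ l) (c l)| ≤
      (n + 1) * ((2 * Real.pi) ^ n * (|TT S c| * ∏ l, (Real.sqrt 2 *
        Real.sqrt (2 * QF (E l) (R l) (c l) * (y l / (1 - y l) ^ 2))))) := by
  choose bb cc hlo using fun l i j => (h l).exists_lo (hW l) (hρ l) i j
  set w : ∀ l, Fin (r l + 1) → Fin (r l + 1) → ℝ := fun l i j => if i = j then om l else 0
    with hw
  set m : ∀ l, Fin (r l + 1) → Fin (r l + 1) → ℝ := fun l i j =>
    (E l i j 0).re + if i = j then Real.log (ρ l) else 0 with hm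
  set s := TT S c with hs
  set G : ∀ l, Fin (r l + 1) → Fin (r l + 1) → ℝ → ℂ := fun l i j s => x l i (W l s) - β l j
    with hG
  set D : Fin (n + 1) → ∀ l, Fin (r l + 1) → Fin (r l + 1) → ℝ → ℝ → ℂ := fun l l' i j t z =>
    if l' = l then pt (G l' i j) t z - m l' i j else qt (G l' i j) t z - w l' i j with hD
  have hDfn : ∀ l l' i j, Fn (D l l' i j) := by
    intro l l' i j
    simp only [hD]
    by_cases hl : l' = l
    · simp only [if_pos hl]
      exact (hlo l' i j).fn_p
    · simp only [if_neg hl]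
      exact (hlo l' i j).fn_q
  set b : Fin (n + 1) → ℝ := fun l =>
    Real.sqrt (2 * QF (E l) (R l) (c l) * (y l / (1 - y l) ^ 2)) with hbdef
  have hy0 : ∀ l, 0 ≤ y l := fun l => le_trans (sq_nonneg _) (hy l)
  have hQ0 : ∀ l, 0 ≤ 2 * QF (E l) (R l) (c l) * (y l / (1 - y l) ^ 2) := fun l => by
    have h1 := (h l).QF_nonneg (hc0 l)
    have h2 := hy0 l
    positivity
  -- the regulators
  have hPR : ∀ i j, PR β x W i j = ∑ l, sg l * ((∏ l', ((Function.update
      (fun l' => w l' (i l') (j l')) l (m l (i l) (j l)) l' : ℝ) : ℂ)) +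
      J (fun l' => D l l' (i l') (j l'))).re := by
    intro i j
    unfold PR
    rw [pairing_tf (w := fun l => w l (i l) (j l)) (m := fun l => m l (i l) (j l))
      (b := fun l => bb l (i l) (j l)) (c := fun l => cc l (i l) (j l))
      (fun l => hlo l (i l) (j l))]
    refine sum_congr rfl fun l _ => ?_
    rw [J_eq (w := fun l => w l (i l) (j l)) (m := fun l => m l (i l) (j l))
      (b := fun l => bb l (i l) (j l)) (c := fun l => cc l (i l) (j l))
      (fun l => hlo l (i l) (j l)) l]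
    rfl
  -- the main terms
  have hmain : ∀ l, ∑ i, S i * ∑ j : (∀ l, Fin (r l + 1)), (∏ l, c l (j l)) *
      ∏ l', Function.update (fun l' => w l' (i l') (j l')) l (m l (i l) (j l)) l' =
      (∏ l' ∈ univ.erase l, om l') * (s * -QF (E l) (ρ l) (c l)) := by
    intro l
    have e1 : ∀ i : (∀ l, Fin (r l + 1)), ∑ j : (∀ l, Fin (r l + 1)), (∏ l, c l (j l)) *
        ∏ l', Function.update (fun l' => w l' (i l') (j l')) l (m l (i l) (j l)) l' =
        ∏ l', Function.update (fun l a => om l * c l a) l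
          (fun a => ∑ κ, c l κ * m l a κ) l' (i l') := by
      intro i
      have e2 : ∀ l', Function.update (fun l a => om l * c l a) l
          (fun a => ∑ κ, c l κ * m l a κ) l' (i l') =
          ∑ κ, c l' κ * (if l' = l then m l' (i l') κ else w l' (i l') κ) := by
        intro l'
        by_cases hl : l' = l
        · subst hl
          rw [Function.update_self]
          simp
        · rw [Function.update_of_ne hl]
          simp only [if_neg hl, hw, mul_ite, mul_zero]
          rw [sum_ite_eq, if_pos (mem_univ _), mul_comm]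
      rw [prod_congr rfl fun l' _ => e2 l', prod_univ_sum, Fintype.piFinset_univ]
      refine sum_congr rfl fun j _ => ?_
      rw [prod_mul_distrib]
      congr 1
      refine prod_congr rfl fun l' _ => ?_
      by_cases hl : l' = l
      · subst hl
        rw [Function.update_self, if_pos rfl]
      · rw [Function.update_of_ne hl, if_neg hl]
    simp only [e1]
    have e3 := TT_upd_smul (S := S) c om l (fun a => ∑ κ, c l κ * m l a κ)
    unfold TT at e3
    rw [e3]
    have e4 := best_upd hc hb l (fun a => ∑ κ, c l κ * m l a κ)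
    unfold TT at e4
    rw [e4]
    congr 2
    unfold QF
    rw [neg_neg]
    refine sum_congr rfl fun a _ => ?_
    rw [sum_mul]
    refine sum_congr rfl fun κ _ => ?_
    simp only [hm]
    ring
  -- the errors
  have herr : ∀ l, ‖∑ i, (S i : ℂ) * J (fun l' t z => ∑ κ, (c l' κ : ℂ) * D l l' (i l') κ t z)‖ ≤
      (2 * Real.pi) ^ n * (|s| * ∏ l, (Real.sqrt 2 * b l)) := by
    intro l
    have hb0 : ∀ l, 0 ≤ b l := fun l => Real.sqrt_nonneg _
    have e1 := norm_sum_J hc hb (H := fun l' a t z => ∑ κ, (c l' κ : ℂ) * D l l' a κ t z)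
      (fun l' a => fn_sum (fun κ => hDfn l l' a κ) (c l'))
      (B := fun l' => if l' = l then b l' else 2 * Real.pi * b l') (fun l' => by
        have := Real.pi_pos
        have := hb0 l'
        split_ifs
        · exact this
        · positivity) (fun l' t ht z => by
        by_cases hl : l' = l
        · simp only [if_pos hl, hD]
          rw [Real.sq_sqrt (hQ0 l')]
          exact (h l').vp (hW l') (hρ l') (hc0 l') (hy l') (hy1 l') t z
        · simp only [if_neg hl, hD]
          rw [mul_pow, Real.sq_sqrt (hQ0 l')]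
          refine ((h l').vq (hW l') (hρ l') (hc0 l') (hy l') (hy1 l') ht z).trans ?_
          refine mul_le_mul_of_nonneg_right ?_ (hQ0 l')
          rw [← sq_abs]
          exact pow_le_pow_left₀ (abs_nonneg _) (abs_om l') 2)
    refine e1.trans (le_of_eq ?_)
    have e2 : ∏ l', (Real.sqrt 2 * if l' = l then b l' else 2 * Real.pi * b l') =
        (2 * Real.pi) ^ n * ∏ l', (Real.sqrt 2 * b l') := by
      have e3 : ∀ l', (Real.sqrt 2 * if l' = l then b l' else 2 * Real.pi * b l') =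
          (if l' = l then 1 else 2 * Real.pi) * (Real.sqrt 2 * b l') := by
        intro l'
        split_ifs
        · ring
        · ring
      simp only [e3]
      rw [prod_mul_distrib]
      congr 1
      rw [← mul_prod_erase univ _ (mem_univ l), if_pos rfl, one_mul,
        prod_congr rfl fun l' hl' => if_neg (ne_of_mem_erase hl'), prod_const,
        card_erase_of_mem (mem_univ l), card_univ, Fintype.card_fin, Nat.add_sub_cancel]
    rw [e2]
    ring
  -- the total
  have htot : ∑ i, S i * ∑ j : (∀ l, Fin (r l + 1)), (∏ l, c l (j l)) * PR β x W i j =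
      ∑ l, sg l * ((∏ l' ∈ univ.erase l, om l') * (s * -QF (E l) (ρ l) (c l)) +
        (∑ i, (S i : ℂ) * J (fun l' t z => ∑ κ, (c l' κ : ℂ) * D l l' (i l') κ t z)).re) := by
    have e1 : ∀ i, ∑ j : (∀ l, Fin (r l + 1)), (∏ l, c l (j l)) * PR β x W i j =
        ∑ l, sg l * ((∑ j : (∀ l, Fin (r l + 1)), (∏ l, c l (j l)) *
          ∏ l', Function.update (fun l' => w l' (i l') (j l')) l (m l (i l) (j l)) l') +
          (J (fun l' t z => ∑ κ, (c l' κ : ℂ) * D l l' (i l') κ t z)).re) := by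
      intro i
      have e2 : ∀ l, (J (fun l' t z => ∑ κ, (c l' κ : ℂ) * D l l' (i l') κ t z)).re =
          ∑ j : (∀ l, Fin (r l + 1)), (∏ l, c l (j l)) * (J fun l' => D l l' (i l') (j l')).re := by
        intro l
        rw [← J_sum (fun l' κ => hDfn l l' (i l') κ) c, Complex.re_sum]
        refine sum_congr rfl fun j _ => ?_
        rw [Complex.re_ofReal_mul]
      simp only [e2, ← sum_add_distrib, mul_sum]
      rw [sum_comm]
      refine sum_congr rfl fun j _ => ?_
      rw [hPR, mul_sum]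
      refine sum_congr rfl fun l _ => ?_
      rw [Complex.add_re, ← Complex.ofReal_prod, Complex.ofReal_re]
      ring
    rw [sum_congr rfl fun i _ => by rw [e1 i, mul_sum], sum_comm]
    refine sum_congr rfl fun l _ => ?_
    rw [← hmain l, Complex.re_sum, ← sum_add_distrib, mul_sum]
    refine sum_congr rfl fun i _ => ?_
    rw [Complex.re_ofReal_mul]
    ring
  rw [htot]
  have e1 : ∀ l, sg l * ((∏ l' ∈ univ.erase l, om l') * (s * -QF (E l) (ρ l) (c l)) +
        (∑ i, (S i : ℂ) * J (fun l' t z => ∑ κ, (c l' κ : ℂ) * D l l' (i l') κ t z)).re) =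
      -((2 * Real.pi) ^ n * s * QF (E l) (ρ l) (c l)) +
        sg l * (∑ i, (S i : ℂ) * J (fun l' t z => ∑ κ, (c l' κ : ℂ) * D l l' (i l') κ t z)).re := by
    intro l
    rw [← sg_om l]
    ring
  simp only [e1, sum_add_distrib, sum_neg_distrib, ← mul_sum]
  rw [neg_add_eq_sub, sub_add_cancel]
  refine (abs_sum_le_sum_abs _ _).trans ?_
  calc ∑ l, |sg l * (∑ i, (S i : ℂ) *
        J (fun l' t z => ∑ κ, (c l' κ : ℂ) * D l l' (i l') κ t z)).re| ≤
      ∑ _l : Fin (n + 1), (2 * Real.pi) ^ n * (|s| * ∏ l, (Real.sqrt 2 * b l)) := by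
        refine sum_le_sum fun l _ => ?_
        rw [abs_mul]
        have h1 : |(sg l : ℝ)| = 1 := by
          refine Fin.cases ?_ (fun l => ?_) l
          · show |(1 : ℝ)| = 1
            norm_num
          · show |(-1 : ℝ)| = 1
            norm_num
        rw [h1, one_mul]
        exact (Complex.abs_re_le_norm _).trans (herr l)
    _ = (n + 1) * ((2 * Real.pi) ^ n * (|s| * ∏ l, (Real.sqrt 2 * b l))) := by
        rw [sum_const, card_univ, Fintype.card_fin, nsmul_eq_mul]
        push_cast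
        ring

end

end Pool.Agent.J4H54.CV
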