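import Pool.Agent.J4H54.CV.One
import Pool.Agent.N686.DI.Fin
set_option autoImplicit false

/-!
The branches of the inverse of a polynomial with simple roots on a disc without critical values.
-/

namespace Pool.Agent.J4H54.CV

open MeasureTheory Set Filter Topology Metric Polynomial

open Pool.Agent.TH826.MK (circ norm_circ)

open Pool.Agent.N686.DI (fc hasSum_fc exists_branches_at exists_logs qf qf_ineq sub_eq_exp re_aa)

open Pool.Agent.Y775.CC (Branches psi)

variable {N : ℕ}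

/-- the quadratic form -/
noncomputable def QF (E : Fin N → Fin N → ℂ → ℂ) (R : ℝ) (c : Fin N → ℝ) : ℝ :=
  -∑ i, ∑ j, c i * c j * ((E i j 0).re + if i = j then Real.log R else 0)

/-- The branches `x_i` of the inverse of `∏ (x - β_i)` on the disc of radius `R`, and the
logarithms `E_{ij}` of the `x_i - β_j`. -/
structure Fac (β : Fin N → ℂ) (R : ℝ) (V : Set ℂ) (x : Fin N → ℂ → ℂ)
    (E : Fin N → Fin N → ℂ → ℂ) : Prop where
  pos : 0 < R
  isOpen : IsOpen V
  disc : ∀ z : ℂ, ‖z‖ ≤ R → z ∈ V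
  dx : ∀ i, DifferentiableOn ℂ (x i) V
  dE : ∀ i j, DifferentiableOn ℂ (E i j) V
  eq : ∀ i j, ∀ w ∈ V, x i w - β j = (if i = j then w else 1) * Complex.exp (E i j w)
  prod : ∀ i, ∀ w ∈ V, ∏ j, (x i w - β j) = w
  val : ∀ i, x i 0 = β i
  fluct : ∀ c : Fin N → ℝ, ∑ i, c i = 0 → ∀ (y : ℝ) (w : ℂ), y < 1 → ‖w / R‖ ^ 2 ≤ y →
    ∑ i, ‖∑ j, (c j : ℂ) * (E i j w - E i j 0)‖ ^ 2 ≤ 2 * QF E R c * (y / (1 - y) ^ 2)
  der : ∀ c : Fin N → ℝ, ∑ i, c i = 0 → ∀ (y : ℝ) (w : ℂ), y < 1 → ‖w / R‖ ^ 2 ≤ y →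
    ∑ i, ‖∑ j, (c j : ℂ) * (w * deriv (E i j) w)‖ ^ 2 ≤ 2 * QF E R c * (y / (1 - y) ^ 2)

theorem fc_sum {R : ℝ} {V : Set ℂ} (hR : 0 < R) (hV : ∀ z : ℂ, ‖z‖ ≤ R → z ∈ V)
    {g : Fin N → ℂ → ℂ} (hg : ∀ j, DifferentiableOn ℂ (g j) V) (c : Fin N → ℂ) (m : ℕ) :
    fc R (fun w => ∑ j, c j * g j w) m = ∑ j, c j * fc R (g j) m := by
  have hc : ∀ j, Continuous fun t => g j (circ R t) := fun j =>
    (hg j).continuousOn.comp_continuous
      ((Pool.Agent.TH826.MK.contDiff_circ R (n := 0)).continuous)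
      fun t => hV _ (norm_circ hR.le t).le
  rw [fc_eq_int]
  simp only [fc_eq_int]
  have hi : ∀ j, Continuous fun t => c j * (g j (circ R t) * (circ 1 t)⁻¹ ^ m) := fun j =>
    continuous_const.mul ((hc j).mul
      ((Pool.Agent.N686.DI.contDiff_inv_pow m).continuous))
  have e : ∀ t, (∑ j, c j * g j (circ R t)) * (circ 1 t)⁻¹ ^ m =
      ∑ j, c j * (g j (circ R t) * (circ 1 t)⁻¹ ^ m) := by
    intro t
    rw [Finset.sum_mul]
    exact Finset.sum_congr rfl fun j _ => by ring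
  simp only [e]
  rw [intervalIntegral.integral_finsetSum fun j _ => (hi j).intervalIntegrable _ _]
  exact Finset.sum_congr rfl fun j _ => intervalIntegral.integral_const_mul _ _

theorem exists_fac (hN : 0 < N) (β : Fin N → ℂ) (hβ : Function.Injective β) {R c : ℝ}
    (hR : 0 < R) (hRc : R < c) (hcrit : ∀ x, (derivative (∏ i, (X - C (β i)))).eval x = 0 →
      c ≤ ‖(∏ i, (X - C (β i))).eval x‖) :
    ∃ (V : Set ℂ) (x : Fin N → ℂ → ℂ) (E : Fin N → Fin N → ℂ → ℂ), Fac β R V x E := by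
  have hc : 0 < c := hR.trans hRc
  obtain ⟨μ, hμ, G, φ, H, h0, hprod⟩ := exists_branches_at hN β hβ hc hcrit
  have hμc : (μ : ℂ) ≠ 0 := by exact_mod_cast hμ.ne'
  have hμN : (0 : ℝ) < μ ^ N := pow_pos hμ N
  have hμNc : ((μ : ℂ) ^ N) ≠ 0 := pow_ne_zero _ hμc
  have h0V : (0 : ℂ) ∈ ball (0 : ℂ) (c / μ ^ N) := mem_ball_self (by positivity)
  obtain ⟨aa, haad, haa⟩ := exists_logs H h0V
  set ν : ℂ := ((μ : ℂ) ^ N)⁻¹ with hν
  have hν0 : ν ≠ 0 := inv_ne_zero hμNc
  have hνn : ‖ν‖ = (μ ^ N)⁻¹ := by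
    rw [hν, norm_inv, norm_pow, Complex.norm_real, Real.norm_of_nonneg hμ.le]
  have hmem : ∀ w ∈ ball (0 : ℂ) c, ν * w ∈ ball (0 : ℂ) (c / μ ^ N) := by
    intro w hw
    rw [mem_ball_zero_iff] at hw ⊢
    rw [norm_mul, hνn, inv_mul_eq_div]
    exact div_lt_div_of_pos_right hw hμN
  set R' : ℝ := R / μ ^ N with hR'
  have hR'0 : 0 < R' := by positivity
  have hV' : ∀ z : ℂ, ‖z‖ ≤ R' → z ∈ ball (0 : ℂ) (c / μ ^ N) := by
    intro z hz
    rw [mem_ball_zero_iff]
    exact lt_of_le_of_lt hz (div_lt_div_of_pos_right hRc hμN)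
  set k : Fin N → Fin N → ℝ := fun i j => if i = j then (1 - N) * Real.log μ else Real.log μ
    with hk
  set E : Fin N → Fin N → ℂ → ℂ := fun i j w => aa i j (ν * w) + (k i j : ℂ) with hE
  have hmul : ∀ (w : ℂ), HasDerivAt (fun w : ℂ => ν * w) ν w := fun w => by
    simpa using (hasDerivAt_id w).const_mul ν
  have hdE : ∀ i j, ∀ w ∈ ball (0 : ℂ) c, HasDerivAt (E i j) (deriv (aa i j) (ν * w) * ν) w := by
    intro i j w hw
    have h1 : HasDerivAt (aa i j) (deriv (aa i j) (ν * w)) (ν * w) :=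
      ((haad i j).differentiableAt (isOpen_ball.mem_nhds (hmem w hw))).hasDerivAt
    exact (h1.comp w (hmul w)).add_const _
  have hexp : Complex.exp (Real.log μ : ℂ) = μ := by
    rw [← Complex.ofReal_exp, Real.exp_log hμ]
  -- the quadratic forms
  have hQF : ∀ c : Fin N → ℝ, ∑ i, c i = 0 → ∑ k, ∑ i, c k * c i * qf φ R' k i = QF E R c := by
    intro c hc0
    unfold QF
    have e1 : ∀ i j, c i * c j * ((E i j 0).re + if i = j then Real.log R else 0) =
        -(c i * c j * qf φ R' i j) + c i * c j * Real.log μ := by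
      intro i j
      have e2 : (E i j 0).re = Real.log ‖psi φ i j 0 0‖ + k i j := by
        simp only [hE]
        rw [mul_zero, Complex.add_re, Complex.ofReal_re, re_aa haa i j h0V]
      rw [e2]
      unfold qf
      simp only [hk]
      by_cases hij : i = j
      · rw [if_pos hij, if_pos hij, if_pos hij, hR', Real.log_div hR.ne' hμN.ne', Real.log_pow]
        ring
      · rw [if_neg hij, if_neg hij, if_neg hij]
        ring
    simp only [e1, Finset.sum_add_distrib, Finset.sum_neg_distrib]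
    have e3 : ∑ i, ∑ j, c i * c j * Real.log μ = 0 := by
      have e4 : ∀ i, ∑ j, c i * c j * Real.log μ = 0 := by
        intro i
        rw [← Finset.sum_mul, ← Finset.mul_sum, hc0, mul_zero, zero_mul]
      exact Finset.sum_eq_zero fun i _ => e4 i
    rw [e3, add_zero, neg_neg]
  have hen : ∀ c : Fin N → ℝ, ∑ i, c i = 0 → ∀ M : ℕ, ∑ i, ∑ m ∈ Finset.Icc 1 M, (m : ℝ) / 2 *
      ‖fc R' (fun w => ∑ j, (c j : ℂ) * aa i j w) m‖ ^ 2 ≤ QF E R c := by
    intro c hc0 M
    rw [← hQF c hc0]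
    simp only [fc_sum hR'0 hV' (haad _)]
    exact qf_ineq H hR'0 hV' haad haa c hc0 M
  have hdiv : ∀ w : ℂ, ν * w / R' = w / R := by
    intro w
    rw [hR', hν]
    push_cast
    have : (R : ℂ) ≠ 0 := by exact_mod_cast hR.ne'
    field_simp
  refine ⟨ball 0 c, fun i w => μ * φ i (ν * w), E, hR, isOpen_ball, fun z hz => ?_, fun i => ?_,
    fun i j w hw => (hdE i j w hw).differentiableAt.differentiableWithinAt, fun i j w hw => ?_,
    fun i w hw => ?_, fun i => ?_, fun c' hc0 y w hy hw => ?_, fun c' hc0 y w hy hw => ?_⟩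
  · rw [mem_ball_zero_iff]
    linarith
  · intro w hw
    have h1 := (H.differentiableOn i).differentiableAt (isOpen_ball.mem_nhds (hmem w hw))
    exact ((h1.comp w (hmul w).differentiableAt).const_mul _).differentiableWithinAt
  · rw [← h0 j, ← mul_sub, sub_eq_exp haa i j (hmem w hw)]
    simp only [hE, hk]
    rw [Complex.exp_add]
    by_cases hij : i = j
    · rw [if_pos hij, if_pos hij, if_pos hij]
      have h1 : Complex.exp (((1 - N) * Real.log μ : ℝ) : ℂ) = μ * ν := by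
        push_cast
        rw [sub_mul, one_mul, Complex.exp_sub, hexp, Complex.exp_nat_mul, hexp, hν]
        rfl
      rw [h1]
      ring
    · rw [if_neg hij, if_neg hij, if_neg hij, hexp]
      ring
  · rw [hprod i _ (hmem w hw), hν, ← mul_assoc, mul_inv_cancel₀ hμNc, one_mul]
  · rw [mul_zero, h0]
  · have h1 := fluct_le hR'0 hV' isOpen_ball (g := fun i w => ∑ j, (c' j : ℂ) * aa i j w)
      (fun i => DifferentiableOn.fun_sum fun j _ => (haad i j).const_mul _) (hen c' hc0) hy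
      (w := ν * w) (by rw [hdiv]; exact hw)
    refine le_trans (le_of_eq ?_) h1
    refine Finset.sum_congr rfl fun i _ => ?_
    rw [← Finset.sum_sub_distrib]
    congr 2
    refine Finset.sum_congr rfl fun j _ => ?_
    simp only [hE]
    rw [mul_zero]
    ring
  · have h1 := deriv_le hR'0 hV' isOpen_ball (g := fun i w => ∑ j, (c' j : ℂ) * aa i j w)
      (fun i => DifferentiableOn.fun_sum fun j _ => (haad i j).const_mul _) (hen c' hc0) hy
      (w := ν * w) (by rw [hdiv]; exact hw)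
    have hwb : w ∈ ball (0 : ℂ) c := by
      have h2 := norm_lt hR'0 hV' isOpen_ball (g := fun i w => ∑ j, (c' j : ℂ) * aa i j w)
        (fun i => DifferentiableOn.fun_sum fun j _ => (haad i j).const_mul _) (hen c' hc0) hy
        (w := ν * w) (by rw [hdiv]; exact hw)
      rw [norm_mul, hνn, hR', inv_mul_eq_div, div_lt_div_iff_of_pos_right hμN] at h2
      rw [mem_ball_zero_iff]
      linarith
    refine le_trans (le_of_eq ?_) h1
    refine Finset.sum_congr rfl fun i _ => ?_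
    congr 2
    have h2 : deriv (fun w => ∑ j, (c' j : ℂ) * aa i j w) (ν * w) =
        ∑ j, (c' j : ℂ) * deriv (aa i j) (ν * w) := by
      refine HasDerivAt.deriv (HasDerivAt.fun_sum fun j _ => ?_)
      exact (((haad i j).differentiableAt
        (isOpen_ball.mem_nhds (hmem w hwb))).hasDerivAt).const_mul _
    simp only [h2]
    rw [Finset.mul_sum]
    refine Finset.sum_congr rfl fun j _ => ?_
    rw [(hdE i j w hwb).deriv]
    ring

section

variable {β : Fin N → ℂ} {R : ℝ} {V : Set ℂ} {x : Fin N → ℂ → ℂ} {E : Fin N → Fin N → ℂ → ℂ}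

theorem Fac.zero_mem (h : Fac β R V x E) : (0 : ℂ) ∈ V := h.disc 0 (by rw [norm_zero]; exact h.pos.le)

theorem Fac.re_ne (h : Fac β R V x E) {i j : Fin N} (hij : i ≠ j) :
    (E i j 0).re = Real.log ‖β i - β j‖ := by
  have h1 := h.eq i j 0 h.zero_mem
  rw [if_neg hij, one_mul, h.val] at h1
  rw [h1, Complex.norm_exp, Real.log_exp]

theorem Fac.sum_re (h : Fac β R V x E) (i : Fin N) : ∑ j, (E i j 0).re = 0 := by
  have hc : ContinuousAt (fun w => ∑ j, (E i j w).re) 0 := by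
    refine tendsto_finsetSum _ fun j _ => ?_
    exact Complex.continuous_re.continuousAt.comp ((h.dE i j).continuousOn.continuousAt
      (h.isOpen.mem_nhds h.zero_mem))
  have h1 : Tendsto (fun w => ∑ j, (E i j w).re) (𝓝[≠] 0) (𝓝 (∑ j, (E i j 0).re)) :=
    hc.tendsto.mono_left nhdsWithin_le_nhds
  refine tendsto_nhds_unique h1 (tendsto_const_nhds.congr' ?_)
  have h2 : ∀ᶠ w in 𝓝[≠] (0 : ℂ), w ∈ V := nhdsWithin_le_nhds (h.isOpen.mem_nhds h.zero_mem)
  filter_upwards [h2, self_mem_nhdsWithin] with w hw hw0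
  have hw0' : w ≠ 0 := hw0
  have h3 := h.prod i w hw
  simp only [fun j => h.eq i j w hw] at h3
  rw [Finset.prod_mul_distrib, Finset.prod_ite_eq, if_pos (Finset.mem_univ i),
    ← Complex.exp_sum] at h3
  have h4 : Complex.exp (∑ j, E i j w) = 1 := by
    refine mul_left_cancel₀ hw0' ?_
    rw [h3, mul_one]
  have h5 := congrArg norm h4
  rw [Complex.norm_exp, norm_one, Real.exp_eq_one_iff, Complex.re_sum] at h5
  exact h5.symm

theorem QF_eq (c : Fin N → ℝ) : QF E R c = -(∑ i, ∑ j, c i * c j * (E i j 0).re) -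
    Real.log R * ∑ i, c i ^ 2 := by
  unfold QF
  have e1 : ∀ i, ∑ j, c i * c j * ((E i j 0).re + if i = j then Real.log R else 0) =
      (∑ j, c i * c j * (E i j 0).re) + Real.log R * c i ^ 2 := by
    intro i
    simp only [mul_add, Finset.sum_add_distrib, mul_ite, mul_zero, Finset.sum_ite_eq,
      Finset.mem_univ, if_true]
    ring
  simp only [e1, Finset.sum_add_distrib]
  rw [Finset.mul_sum]
  ring

theorem Fac.QF_le (h : Fac β R V x E) {c : Fin N → ℝ} (hc : ∑ i, c i = 0)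
    (hc1 : ∑ i, c i ^ 2 = 1) {d : ℝ} (hd : ∀ i j, i ≠ j → Real.log ‖β i - β j‖ ≤ d) :
    QF E R c ≤ N * d - Real.log R := by
  rw [QF_eq, hc1, mul_one]
  have hsymm : ∀ i j, (E i j 0).re = (E j i 0).re := by
    intro i j
    by_cases hij : i = j
    · subst hij
      rfl
    · rw [h.re_ne hij, h.re_ne (Ne.symm hij), norm_sub_rev]
  have e1 : ∑ i, ∑ j, c i ^ 2 * (E i j 0).re = 0 := by
    refine Finset.sum_eq_zero fun i _ => ?_
    rw [← Finset.mul_sum, h.sum_re, mul_zero]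
  have e2 : ∑ i, ∑ j, c j ^ 2 * (E i j 0).re = 0 := by
    rw [Finset.sum_comm, ← e1]
    refine Finset.sum_congr rfl fun i _ => Finset.sum_congr rfl fun j _ => ?_
    rw [hsymm]
  have e3 : -(∑ i, ∑ j, c i * c j * (E i j 0).re) =
      ∑ i, ∑ j, (c i - c j) ^ 2 / 2 * (E i j 0).re := by
    have e4 : ∀ i j, (c i - c j) ^ 2 / 2 * (E i j 0).re = c i ^ 2 * (E i j 0).re / 2 +
        c j ^ 2 * (E i j 0).re / 2 - c i * c j * (E i j 0).re := fun i j => by ring
    simp only [e4, Finset.sum_sub_distrib, Finset.sum_add_distrib, ← Finset.sum_div]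
    rw [e1, e2]
    ring
  have e5 : ∑ i, ∑ j, (c i - c j) ^ 2 / 2 * (E i j 0).re ≤ ∑ i, ∑ j, (c i - c j) ^ 2 / 2 * d := by
    refine Finset.sum_le_sum fun i _ => Finset.sum_le_sum fun j _ => ?_
    by_cases hij : i = j
    · subst hij
      simp
    · refine mul_le_mul_of_nonneg_left ?_ (by positivity)
      rw [h.re_ne hij]
      exact hd i j hij
  have e6 : ∑ i, ∑ j, (c i - c j) ^ 2 / 2 * d = N * d := by
    have e7 : ∀ i j, (c i - c j) ^ 2 / 2 * d = c i ^ 2 * (d / 2) + c j ^ 2 * (d / 2) -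
        c i * (c j * d) := fun i j => by ring
    simp only [e7, Finset.sum_sub_distrib, Finset.sum_add_distrib, ← Finset.sum_mul,
      Finset.sum_const, Finset.card_univ, Fintype.card_fin, ← Finset.mul_sum, hc1, hc,
      nsmul_eq_mul]
    ring
  rw [e3]
  linarith

theorem Fac.QF_nonneg (h : Fac β R V x E) {c : Fin N → ℝ} (hc : ∑ i, c i = 0) :
    0 ≤ QF E R c := by
  have h1 := h.fluct c hc (1 / 2) 0 (by norm_num) (by simp)
  simp only [sub_self, mul_zero, Finset.sum_const_zero, norm_zero] at h1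
  norm_num at h1
  linarith

end

end Pool.Agent.J4H54.CV
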