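import Mathlib
set_option autoImplicit false

/-!
Finiteness.
-/

namespace Pool.Agent.J4H54.CV

open Finset

theorem finite_family (n : ℕ) (C : ℤ) :
    {p : Σ r : Fin (n + 1) → ℕ, ℤ × ∀ k, Fin (r k + 1) → ℤ |
      (∀ k, (p.1 k : ℤ) ≤ 2 * C) ∧ |p.2.1| ≤ C ∧ ∀ k i, |p.2.2 k i| ≤ C}.Finite := by
  have h1 : {r : Fin (n + 1) → ℕ | ∀ k, r k ∈ Set.Iic (2 * C).toNat}.Finite :=
    Set.Finite.pi' fun k => Set.finite_Iic _
  refine Set.Finite.subset (Set.Finite.biUnion h1 fun r _ =>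
    ((Set.finite_Icc (-C) C).prod (Set.Finite.pi' fun k : Fin (n + 1) =>
      Set.Finite.pi' fun _ : Fin (r k + 1) => Set.finite_Icc (-C) C)).image (Sigma.mk r)) ?_
  rintro ⟨r, m, b⟩ ⟨hr, hm, hb⟩
  refine Set.mem_biUnion (x := r) (fun k => ?_) ⟨(m, b), ⟨?_, fun k i => ?_⟩, rfl⟩
  · have := hr k
    simp only [Set.mem_Iic] at this ⊢
    omega
  · exact ⟨(abs_le.1 hm).1, (abs_le.1 hm).2⟩
  · exact ⟨(abs_le.1 (hb k i)).1, (abs_le.1 (hb k i)).2⟩

theorem finite_small (n : ℕ) (C : ℤ) (hC : 1 ≤ C) :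
    {p : Σ r : Fin (n + 1) → ℕ, ℤ × ∀ k, Fin (r k + 1) → ℤ | p.2.1 ≠ 0 ∧ (∀ k, 1 ≤ p.1 k) ∧
      (∀ k, Function.Injective (p.2.2 k)) ∧ (∀ k, p.2.2 k 0 = 0) ∧
      ∀ i j : (∀ k, Fin (p.1 k + 1)), p.2.1 ^ 2 * ∏ k, |p.2.2 k (i k) - p.2.2 k (j k)| < C}.Finite := by
  refine (finite_family n C).subset ?_
  rintro ⟨r, m, b⟩ ⟨hm, hr, hinj, h0, h⟩
  simp only at hm hr hinj h0 h
  have hm2 : 1 ≤ m ^ 2 := by
    have := Int.one_le_abs hm
    rw [← sq_abs]
    nlinarith
  set o : ∀ k, Fin (r k + 1) := fun k => ⟨1, by have := hr k; omega⟩ with ho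
  have hone : ∀ k, 1 ≤ |b k (o k) - b k 0| := by
    intro k
    refine Int.one_le_abs (sub_ne_zero.2 fun e => ?_)
    have := congrArg Fin.val (hinj k e)
    simp [ho] at this
  have hb : ∀ k i, |b k i| ≤ C := by
    intro k i
    have h1 := h (Function.update o k i) fun _ => 0
    have h2 : |b k i| ≤ ∏ l, |b l (Function.update o k i l) - b l 0| := by
      rw [← mul_prod_erase univ _ (mem_univ k), Function.update_self, h0 k, sub_zero]
      have h3 : 1 ≤ ∏ l ∈ univ.erase k, |b l (Function.update o k i l) - b l 0| := by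
        have h4 : ∀ l ∈ univ.erase k, 1 ≤ |b l (Function.update o k i l) - b l 0| := by
          intro l hl
          rw [Function.update_of_ne (ne_of_mem_erase hl)]
          exact hone l
        have h5 := prod_le_prod (s := univ.erase k) (f := fun _ => (1 : ℤ))
          (g := fun l => |b l (Function.update o k i l) - b l 0|) (fun _ _ => by norm_num) h4
        rwa [prod_const_one] at h5
      have := abs_nonneg (b k i)
      nlinarith
    have h6 : 0 ≤ ∏ l, |b l (Function.update o k i l) - b l 0| :=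
      prod_nonneg fun l _ => abs_nonneg _
    have h7 : |b k i| ≤ m ^ 2 * ∏ l, |b l (Function.update o k i l) - b l 0| := by nlinarith
    exact h7.trans h1.le
  refine ⟨fun k => ?_, ?_, hb⟩
  · have h1 : Fintype.card (Fin (r k + 1)) ≤ (Finset.Icc (-C) C).card := by
      rw [← card_univ]
      refine card_le_card_of_injOn (b k) (fun i _ => ?_) (hinj k).injOn
      have := abs_le.1 (hb k i)
      simp only [coe_Icc, Set.mem_Icc]
      exact this
    rw [Fintype.card_fin, Int.card_Icc] at h1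
    have : ((r k : ℕ) : ℤ) ≤ 2 * C := by omega
    exact this
  · have h1 := h o fun _ => 0
    have h3 : 1 ≤ ∏ l, |b l (o l) - b l 0| := by
      have h5 := prod_le_prod (s := univ) (f := fun _ => (1 : ℤ))
        (g := fun l => |b l (o l) - b l 0|) (fun _ _ => by norm_num) fun l _ => hone l
      rwa [prod_const_one] at h5
    have h4 : |m| ≤ m ^ 2 := by
      rw [← sq_abs]
      have := Int.one_le_abs hm
      nlinarith
    have h5 : m ^ 2 ≤ m ^ 2 * ∏ l, |b l (o l) - b l 0| := by nlinarith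
    exact (h4.trans h5).trans h1.le

end Pool.Agent.J4H54.CV
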