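import Pool.Agent.J4H54.CV.Hyp
import Pool.Agent.N686.DI.Int2
set_option autoImplicit false

/-!
Rational integers.
-/

namespace Pool.Agent.J4H54.CV

open Finset

open Pool.Agent.N686.DI (mm mm_succ mm_pos mm_one mm_two mm_ge_one crit_int_diam)

open Pool.Agent.TH826.MH (CRing eqn fpol ent)

open Pool.Agent.TH826.MK (symb Torus)

theorem mm_sq {m : ℕ} (hm : 1 ≤ m) : (m + 2 : ℝ) ≤ 64 * mm m ^ 2 := by
  rcases hm.eq_or_lt with h | h
  · rw [← h, mm_one]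
    norm_num
  · have h2 : 2 ≤ m := h
    induction m, h2 using Nat.le_induction with
    | base =>
      rw [mm_two]
      norm_num
    | succ m hm2 ih =>
      have h3 := ih (by omega) (by omega)
      rw [mm_succ]
      have h4 : (1 : ℝ) ≤ ((m / 2 : ℕ) : ℝ) := by
        have : 1 ≤ m / 2 := by omega
        exact_mod_cast this
      have h5 : (2 : ℝ) ≤ m := by exact_mod_cast hm2
      have h6 := mm_pos m
      push_cast
      have h7 : (9 / 4 : ℝ) ≤ (((m / 2 : ℕ) : ℝ) + 1 / 2) ^ 2 := by nlinarith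
      have h8 : 64 * mm m ^ 2 * (9 / 4) ≤ 64 * mm m ^ 2 * (((m / 2 : ℕ) : ℝ) + 1 / 2) ^ 2 :=
        mul_le_mul_of_nonneg_left h7 (by positivity)
      push_cast at h8
      nlinarith

theorem int_fac {m : ℕ} (hm : 1 ≤ m) (b : Fin (m + 1) → ℤ) (hb : Function.Injective b) :
    ∃ Δ R L : ℝ, (∀ i j, |(b i : ℝ) - b j| ≤ Δ) ∧ 1 ≤ Δ ∧ 0 < R ∧ 1 ≤ L ∧
      (∀ ξ : ℂ, (Polynomial.derivative (∏ i, (Polynomial.X - Polynomial.C (b i : ℂ)))).eval ξ = 0 →
        R < ‖∏ i, (ξ - (b i : ℂ))‖) ∧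
      (∃ d, (∀ i j, i ≠ j → Real.log ‖(b i : ℂ) - b j‖ ≤ d) ∧ (m + 1) * d - Real.log R ≤ L) ∧
      Real.sqrt L * Real.sqrt Δ ≤ 32 * R := by
  obtain ⟨⟨i₀, j₀⟩, -, hmax⟩ := exists_max_image (univ : Finset (Fin (m + 1) × Fin (m + 1)))
    (fun p => |(b p.1 : ℝ) - b p.2|) ⟨(0, 0), mem_univ _⟩
  set Δ : ℝ := |(b i₀ : ℝ) - b j₀| with hΔ
  have hle : ∀ i j, |(b i : ℝ) - b j| ≤ Δ := fun i j => hmax (i, j) (mem_univ _)
  have h1 : 1 ≤ Δ := by
    have h01 : (0 : Fin (m + 1)) ≠ ⟨1, by omega⟩ := by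
      intro h
      have := congrArg Fin.val h
      simp at this
    refine le_trans ?_ (hle 0 ⟨1, by omega⟩)
    have h2 : b 0 - b ⟨1, by omega⟩ ≠ 0 := sub_ne_zero.2 fun h => h01 (hb h)
    have h3 := Int.one_le_abs h2
    exact_mod_cast h3
  have hmm := mm_pos m
  have hmm4 := mm_ge_one hm
  have hm1 : (1 : ℝ) ≤ m := by exact_mod_cast hm
  refine ⟨Δ, Δ * mm m / 4, (m + 2) * Δ, hle, h1, by positivity, by nlinarith, fun ξ hξ => ?_,
    ⟨Real.log Δ, fun i j hij => ?_, ?_⟩, ?_⟩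
  · refine lt_of_lt_of_le ?_ (crit_int_diam b hb hξ i₀ j₀)
    rw [← hΔ]
    nlinarith [mul_pos (lt_of_lt_of_le one_pos h1) hmm]
  · have h2 : ‖(b i : ℂ) - b j‖ = |(b i : ℝ) - b j| := by
      rw [← Int.cast_sub, Complex.norm_intCast]
      push_cast
      rfl
    rw [h2]
    refine Real.log_le_log ?_ (hle i j)
    have h3 : (b i : ℝ) - b j ≠ 0 := by
      rw [sub_ne_zero]
      exact fun h => hij (hb (by exact_mod_cast h))
    exact abs_pos.2 h3
  · have h2 : Real.log (Δ * mm m / 4) = Real.log Δ + Real.log (mm m / 4) := by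
      rw [mul_div_assoc, Real.log_mul (by positivity) (by positivity)]
    have h3 : -Real.log (mm m / 4) ≤ 3 := by
      have h4 : Real.log (1 / 16) ≤ Real.log (mm m / 4) :=
        Real.log_le_log (by norm_num) (by linarith)
      have h5 : Real.log (1 / 16) = -(4 * Real.log 2) := by
        rw [one_div, Real.log_inv]
        have : (16 : ℝ) = 2 ^ 4 := by norm_num
        rw [this, Real.log_pow]
        push_cast
        ring
      have h6 := Real.log_two_lt_d9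
      rw [h5] at h4
      linarith
    have h4 : Real.log Δ ≤ Δ - 1 := Real.log_le_sub_one_of_pos (by linarith)
    rw [h2]
    nlinarith
  · rw [← Real.sqrt_mul (by positivity)]
    refine Real.sqrt_le_iff.2 ⟨by positivity, ?_⟩
    have h2 := mm_sq hm
    have h3 : (0 : ℝ) < Δ ^ 2 := by positivity
    nlinarith

/-- The hypothesis of the criterion for rational integers. -/
theorem main_int {n : ℕ} {r : Fin (n + 1) → ℕ} (m : ℤ)
    (b : ∀ k, Fin (r k + 1) → ℤ) (hb : ∀ k, Function.Injective (b k)) (i j : ∀ k, Fin (r k + 1))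
    (h : 9216 ^ (n + 1) ≤ m ^ 2 * ∏ k, |b k (i k) - b k (j k)|) :
    ∃ (R L : Fin (n + 1) → ℝ), (∀ k, 0 < R k) ∧ (∀ k, 1 ≤ L k) ∧
      (∀ k, ∀ ξ : ℂ, (Polynomial.derivative (∏ i, (Polynomial.X -
        Polynomial.C (b k i : ℂ)))).eval ξ = 0 → R k < ‖∏ i, (ξ - (b k i : ℂ))‖) ∧
      (∀ k, ∃ d, (∀ i j, i ≠ j → Real.log ‖(b k i : ℂ) - b k j‖ ≤ d) ∧
        (r k + 1) * d - Real.log (R k) ≤ L k) ∧
      3 ^ (n + 1) * ∏ k ∈ (univ.erase 0).erase (Fin.last n), Real.sqrt (L k) ≤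
        ‖(m : ℂ)‖ * ∏ k, R k := by
  have hr : ∀ k, 1 ≤ r k := by
    intro k
    by_contra hcon
    have h0 : r k = 0 := by omega
    have h1 : b k (i k) - b k (j k) = 0 := by
      have : i k = j k := by
        apply Fin.ext
        have h2 := (i k).isLt
        have h3 := (j k).isLt
        omega
      rw [this, sub_self]
    have h2 : ∏ k, |b k (i k) - b k (j k)| = 0 := prod_eq_zero (mem_univ k) (by rw [h1, abs_zero])
    rw [h2, mul_zero] at h
    have : (0 : ℤ) < 9216 ^ (n + 1) := by positivity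
    omega
  choose Δ R L hΔ hΔ1 hR hL hcrit hd hs using fun k => int_fac (hr k) (b k) (hb k)
  refine ⟨R, L, hR, hL, hcrit, hd, ?_⟩
  have h1 : ∏ k ∈ (univ.erase 0).erase (Fin.last n), Real.sqrt (L k) ≤ ∏ k, Real.sqrt (L k) := by
    refine prod_le_prod_of_subset_of_one_le (fun k _ => mem_univ k)
      (fun k _ => Real.sqrt_nonneg _) fun k _ _ => Real.one_le_sqrt.2 (hL k)
  have h2 : (∏ k, Real.sqrt (L k)) * ∏ k, Real.sqrt (Δ k) ≤ 32 ^ (n + 1) * ∏ k, R k := by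
    rw [← prod_mul_distrib]
    refine (prod_le_prod (fun k _ => by positivity) fun k _ => hs k).trans (le_of_eq ?_)
    rw [prod_mul_distrib, prod_const, card_univ, Fintype.card_fin]
  have hΔ0 : ∀ k, 0 ≤ Δ k := fun k => zero_le_one.trans (hΔ1 k)
  have h3 : ((9216 : ℝ)) ^ (n + 1) ≤ (m : ℝ) ^ 2 * ∏ k, Δ k := by
    have h4 : ((9216 ^ (n + 1) : ℤ) : ℝ) ≤ ((m ^ 2 * ∏ k, |b k (i k) - b k (j k)| : ℤ) : ℝ) := by
      exact_mod_cast h
    push_cast at h4
    refine h4.trans (mul_le_mul_of_nonneg_left (prod_le_prod (fun k _ => abs_nonneg _)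
      fun k _ => hΔ k (i k) (j k)) (sq_nonneg _))
  have h5 : (96 : ℝ) ^ (n + 1) ≤ |(m : ℝ)| * ∏ k, Real.sqrt (Δ k) := by
    have h6 : ((96 : ℝ) ^ (n + 1)) ^ 2 ≤ (|(m : ℝ)| * ∏ k, Real.sqrt (Δ k)) ^ 2 := by
      rw [mul_pow, sq_abs, ← prod_pow]
      simp only [Real.sq_sqrt (hΔ0 _)]
      rw [← pow_mul, mul_comm, pow_mul]
      norm_num
      exact h3
    exact le_of_sq_le_sq h6 (by positivity)
  have hsΔ : 0 < ∏ k, Real.sqrt (Δ k) := prod_pos fun k _ => Real.sqrt_pos.2 (by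
    have := hΔ1 k
    linarith)
  have h7 : ‖(m : ℂ)‖ = |(m : ℝ)| := by
    rw [Complex.norm_intCast]
  rw [h7]
  have hR0 : 0 < ∏ k, R k := prod_pos fun k _ => hR k
  have h8 : 3 ^ (n + 1) * (∏ k, Real.sqrt (L k)) * ∏ k, Real.sqrt (Δ k) ≤
      (|(m : ℝ)| * ∏ k, R k) * ∏ k, Real.sqrt (Δ k) := by
    calc 3 ^ (n + 1) * (∏ k, Real.sqrt (L k)) * ∏ k, Real.sqrt (Δ k) =
          3 ^ (n + 1) * ((∏ k, Real.sqrt (L k)) * ∏ k, Real.sqrt (Δ k)) := by ring
      _ ≤ 3 ^ (n + 1) * (32 ^ (n + 1) * ∏ k, R k) := mul_le_mul_of_nonneg_left h2 (by positivity)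
      _ = 96 ^ (n + 1) * ∏ k, R k := by
          rw [← mul_assoc, ← mul_pow]
          norm_num
      _ ≤ (|(m : ℝ)| * ∏ k, Real.sqrt (Δ k)) * ∏ k, R k :=
          mul_le_mul_of_nonneg_right h5 hR0.le
      _ = (|(m : ℝ)| * ∏ k, R k) * ∏ k, Real.sqrt (Δ k) := by ring
  have h9 := le_of_mul_le_mul_right h8 hsΔ
  refine le_trans (mul_le_mul_of_nonneg_left h1 (by positivity)) h9

end Pool.Agent.J4H54.CV
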