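import Pool.Agent.J4H54.CV.Sep
import Pool.Agent.J4H54.CV.Ints
set_option autoImplicit false

/-!
The explicit bound for roots with mutual distances at least `1`, and finiteness.
-/

namespace Pool.Agent.J4H54.CV

open Finset

variable {n : ℕ} {r : Fin (n + 1) → ℕ}

/-- The hypothesis of the criterion. -/
theorem main_gen {l : ℝ} (hl : 0 ≤ l) (β : ∀ k, Fin (r k + 1) → ℂ) {B : ℝ} (hB : 0 < B)
    (hf : ∀ k, ∃ Δ R L : ℝ, (∀ i j, ‖β k i - β k j‖ ≤ Δ) ∧ 1 ≤ Δ ∧ 0 < R ∧ 1 ≤ L ∧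
      (∀ ξ : ℂ, (Polynomial.derivative (∏ i, (Polynomial.X - Polynomial.C (β k i)))).eval ξ = 0 →
        R < ‖∏ i, (ξ - β k i)‖) ∧
      (∃ d, (∀ i j, i ≠ j → Real.log ‖β k i - β k j‖ ≤ d) ∧ (r k + 1) * d - Real.log R ≤ L) ∧
      Real.sqrt L * Real.sqrt Δ ≤ B * R)
    (i j : ∀ k, Fin (r k + 1))
    (h : ((3 * B) ^ 2) ^ (n + 1) ≤ l ^ 2 * ∏ k, ‖β k (i k) - β k (j k)‖) :
    ∃ (R L : Fin (n + 1) → ℝ), (∀ k, 0 < R k) ∧ (∀ k, 1 ≤ L k) ∧
      (∀ k, ∀ ξ : ℂ, (Polynomial.derivative (∏ i, (Polynomial.X -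
        Polynomial.C (β k i)))).eval ξ = 0 → R k < ‖∏ i, (ξ - β k i)‖) ∧
      (∀ k, ∃ d, (∀ i j, i ≠ j → Real.log ‖β k i - β k j‖ ≤ d) ∧
        (r k + 1) * d - Real.log (R k) ≤ L k) ∧
      3 ^ (n + 1) * ∏ k ∈ (univ.erase 0).erase (Fin.last n), Real.sqrt (L k) ≤
        l * ∏ k, R k := by
  choose Δ R L hΔ hΔ1 hR hL hcrit hd hs using hf
  refine ⟨R, L, hR, hL, hcrit, hd, ?_⟩
  have h1 : ∏ k ∈ (univ.erase 0).erase (Fin.last n), Real.sqrt (L k) ≤ ∏ k, Real.sqrt (L k) := by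
    refine prod_le_prod_of_subset_of_one_le (fun k _ => mem_univ k)
      (fun k _ => Real.sqrt_nonneg _) fun k _ _ => Real.one_le_sqrt.2 (hL k)
  have h2 : (∏ k, Real.sqrt (L k)) * ∏ k, Real.sqrt (Δ k) ≤ B ^ (n + 1) * ∏ k, R k := by
    rw [← prod_mul_distrib]
    refine (prod_le_prod (fun k _ => by positivity) fun k _ => hs k).trans (le_of_eq ?_)
    rw [prod_mul_distrib, prod_const, card_univ, Fintype.card_fin]
  have hΔ0 : ∀ k, 0 ≤ Δ k := fun k => zero_le_one.trans (hΔ1 k)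
  have h3 : ((3 * B) ^ 2) ^ (n + 1) ≤ l ^ 2 * ∏ k, Δ k :=
    h.trans (mul_le_mul_of_nonneg_left (prod_le_prod (fun k _ => norm_nonneg _)
      fun k _ => hΔ k (i k) (j k)) (sq_nonneg _))
  have h5 : (3 * B) ^ (n + 1) ≤ l * ∏ k, Real.sqrt (Δ k) := by
    have h6 : ((3 * B) ^ (n + 1)) ^ 2 ≤ (l * ∏ k, Real.sqrt (Δ k)) ^ 2 := by
      have e1 : (l * ∏ k, Real.sqrt (Δ k)) ^ 2 = l ^ 2 * ∏ k, Δ k := by
        rw [mul_pow, ← prod_pow]
        simp only [Real.sq_sqrt (hΔ0 _)]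
      rw [e1, ← pow_mul, mul_comm (n + 1) 2, pow_mul]
      exact h3
    exact le_of_sq_le_sq h6 (by positivity)
  have hsΔ : 0 < ∏ k, Real.sqrt (Δ k) := prod_pos fun k _ => Real.sqrt_pos.2 (by
    have := hΔ1 k
    linarith)
  have hR0 : 0 < ∏ k, R k := prod_pos fun k _ => hR k
  have h8 : 3 ^ (n + 1) * (∏ k, Real.sqrt (L k)) * ∏ k, Real.sqrt (Δ k) ≤
      (l * ∏ k, R k) * ∏ k, Real.sqrt (Δ k) := by
    calc 3 ^ (n + 1) * (∏ k, Real.sqrt (L k)) * ∏ k, Real.sqrt (Δ k) =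
          3 ^ (n + 1) * ((∏ k, Real.sqrt (L k)) * ∏ k, Real.sqrt (Δ k)) := by ring
      _ ≤ 3 ^ (n + 1) * (B ^ (n + 1) * ∏ k, R k) := mul_le_mul_of_nonneg_left h2 (by positivity)
      _ = (3 * B) ^ (n + 1) * ∏ k, R k := by
          rw [← mul_assoc, ← mul_pow]
      _ ≤ (l * ∏ k, Real.sqrt (Δ k)) * ∏ k, R k :=
          mul_le_mul_of_nonneg_right h5 hR0.le
      _ = (l * ∏ k, R k) * ∏ k, Real.sqrt (Δ k) := by ring
  have h9 := le_of_mul_le_mul_right h8 hsΔ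
  refine le_trans (mul_le_mul_of_nonneg_left h1 (by positivity)) h9

/-- All the numbers of roots are at least `2`. -/
theorem pos_of_bound {l C : ℝ} (hC : 0 < C) (β : ∀ k, Fin (r k + 1) → ℂ)
    (i j : ∀ k, Fin (r k + 1))
    (h : C ^ (n + 1) ≤ l ^ 2 * ∏ k, ‖β k (i k) - β k (j k)‖) (k : Fin (n + 1)) : 1 ≤ r k := by
  by_contra hcon
  have h0 : r k = 0 := by omega
  have h1 : β k (i k) - β k (j k) = 0 := by
    have : i k = j k := by
      apply Fin.ext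
      have h2 := (i k).isLt
      have h3 := (j k).isLt
      omega
    rw [this, sub_self]
  have h2 : ∏ k, ‖β k (i k) - β k (j k)‖ = 0 := prod_eq_zero (mem_univ k) (by rw [h1, norm_zero])
  rw [h2, mul_zero] at h
  have : 0 < C ^ (n + 1) := by positivity
  linarith

theorem main_sep {K : Type*} [Field K] (σ : K →+* ℂ) (lam : K)
    (a : ∀ k, Fin (r k + 1) → K) (hsep : ∀ k i j, i ≠ j → 1 ≤ ‖σ (a k i) - σ (a k j)‖) {C : ℝ}
    (hC : C = 10 ^ 13 ∨ (C = 9216 ∧ ∀ k i, ∃ z : ℤ, a k i = z)) (i j : ∀ k, Fin (r k + 1))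
    (h : C ^ (n + 1) ≤ ‖σ lam‖ ^ 2 * ∏ k, ‖σ (a k (i k)) - σ (a k (j k))‖) :
    ∃ (R L : Fin (n + 1) → ℝ), (∀ k, 0 < R k) ∧ (∀ k, 1 ≤ L k) ∧
      (∀ k, ∀ ξ : ℂ, (Polynomial.derivative (∏ i, (Polynomial.X -
        Polynomial.C (σ (a k i))))).eval ξ = 0 → R k < ‖∏ i, (ξ - σ (a k i))‖) ∧
      (∀ k, ∃ d, (∀ i j, i ≠ j → Real.log ‖σ (a k i) - σ (a k j)‖ ≤ d) ∧
        (r k + 1) * d - Real.log (R k) ≤ L k) ∧
      3 ^ (n + 1) * ∏ k ∈ (univ.erase 0).erase (Fin.last n), Real.sqrt (L k) ≤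
        ‖σ lam‖ * ∏ k, R k := by
  have hC0 : 0 < C := by
    rcases hC with h | ⟨h, -⟩
    · rw [h]
      norm_num
    · rw [h]
      norm_num
  have hr := pos_of_bound hC0 (fun k i => σ (a k i)) i j h
  rcases hC with hC | ⟨hC, hz⟩
  · refine main_gen (norm_nonneg _) (fun k i => σ (a k i)) (B := 1048576) (by norm_num)
      (fun k => sep_fac (hr k) (fun i => σ (a k i)) (hsep k)) i j (le_trans ?_ h)
    rw [hC]
    exact pow_le_pow_left₀ (by norm_num) (by norm_num) _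
  · choose z hz using hz
    have hσ : ∀ k i, σ (a k i) = (z k i : ℂ) := fun k i => by rw [hz, map_intCast]
    refine main_gen (norm_nonneg _) (fun k i => σ (a k i)) (B := 32) (by norm_num)
      (fun k => ?_) i j (le_trans ?_ h)
    · have hinj : Function.Injective (z k) := by
        intro i j hij
        by_contra hne
        have h1 := hsep k i j hne
        rw [hσ, hσ, hij, sub_self, norm_zero] at h1
        linarith
      obtain ⟨Δ, R, L, h1, h2, h3, h4, h5, h6, h7⟩ := int_fac (hr k) (z k) hinj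
      simp only [hσ]
      refine ⟨Δ, R, L, fun i j => ?_, h2, h3, h4, h5, h6, h7⟩
      have e : ‖(z k i : ℂ) - z k j‖ = |(z k i : ℝ) - z k j| := by
        rw [← Int.cast_sub, Complex.norm_intCast]
        push_cast
        rfl
      rw [e]
      exact h1 i j
    · rw [hC]
      norm_num

section finite

variable {K : Type*} [Field K] [NumberField K]

open NumberField

omit [NumberField K] in
theorem norm_eq_of_sub [Subsingleton (InfinitePlace K)] (σ φ : K →+* ℂ) (x : K) :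
    ‖φ x‖ = ‖σ x‖ := by
  have h : InfinitePlace.mk φ = InfinitePlace.mk σ := Subsingleton.elim _ _
  rw [← InfinitePlace.apply φ x, h, InfinitePlace.apply]

theorem one_le_norm_of_sub [Subsingleton (InfinitePlace K)] (σ : K →+* ℂ) {x : K}
    (hx : IsIntegral ℤ x) (h0 : x ≠ 0) : 1 ≤ ‖σ x‖ := by
  have h1 := InfinitePlace.one_le_of_lt_one (w := InfinitePlace.mk σ) (a := (⟨x, hx⟩ : 𝓞 K))
    (fun h => h0 (congrArg Subtype.val h)) fun z hz => absurd (Subsingleton.elim _ _) hz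
  exact h1

theorem finite_ball [Subsingleton (InfinitePlace K)] (σ : K →+* ℂ) (C : ℝ) :
    {x : K | IsIntegral ℤ x ∧ ‖σ x‖ ≤ C}.Finite := by
  refine (Embeddings.finite_of_norm_le K ℂ C).subset ?_
  rintro x ⟨h1, h2⟩
  exact ⟨h1, fun φ => by rw [norm_eq_of_sub σ φ]; exact h2⟩

omit [Field K] [NumberField K] in
theorem finite_family' (n : ℕ) {F : Set K} (hF : F.Finite) (B : ℕ) :
    {p : Σ r : Fin (n + 1) → ℕ, K × ∀ k, Fin (r k + 1) → K |
      (∀ k, p.1 k ≤ B) ∧ p.2.1 ∈ F ∧ ∀ k i, p.2.2 k i ∈ F}.Finite := by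
  have h1 : {r : Fin (n + 1) → ℕ | ∀ k, r k ∈ Set.Iic B}.Finite :=
    Set.Finite.pi' fun k => Set.finite_Iic _
  refine Set.Finite.subset (Set.Finite.biUnion h1 fun r _ =>
    (hF.prod (Set.Finite.pi' fun k : Fin (n + 1) =>
      Set.Finite.pi' fun _ : Fin (r k + 1) => hF)).image (Sigma.mk r)) ?_
  rintro ⟨r, m, b⟩ ⟨hr, hm, hb⟩
  exact Set.mem_biUnion (x := r) (fun k => hr k) ⟨(m, b), ⟨hm, fun k i => hb k i⟩, rfl⟩

theorem finite_small' [Subsingleton (InfinitePlace K)] (n : ℕ) (σ : K →+* ℂ) (C : ℝ) :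
    {p : Σ r : Fin (n + 1) → ℕ, K × ∀ k, Fin (r k + 1) → K | p.2.1 ≠ 0 ∧ IsIntegral ℤ p.2.1 ∧
      (∀ k i, IsIntegral ℤ (p.2.2 k i)) ∧ (∀ k, 1 ≤ p.1 k) ∧
      (∀ k, Function.Injective (p.2.2 k)) ∧ (∀ k, p.2.2 k 0 = 0) ∧
      ∀ i j : (∀ k, Fin (p.1 k + 1)),
        ‖σ p.2.1‖ ^ 2 * ∏ k, ‖σ (p.2.2 k (i k)) - σ (p.2.2 k (j k))‖ < C}.Finite := by
  have hF := finite_ball (K := K) σ C
  refine (finite_family' n hF hF.toFinset.card).subset ?_
  rintro ⟨r, m, b⟩ ⟨hm, hmi, hbi, hr, hinj, h0, h⟩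
  simp only at hm hmi hbi hr hinj h0 h
  have hm1 : 1 ≤ ‖σ m‖ := one_le_norm_of_sub σ hmi hm
  have hm2 : 1 ≤ ‖σ m‖ ^ 2 := one_le_pow₀ hm1
  set o : ∀ k, Fin (r k + 1) := fun k => ⟨1, by have := hr k; omega⟩ with ho
  have hsub : ∀ k i j, i ≠ j → 1 ≤ ‖σ (b k i) - σ (b k j)‖ := by
    intro k i j hij
    rw [← map_sub]
    exact one_le_norm_of_sub σ ((hbi k i).sub (hbi k j)) (sub_ne_zero.2 fun e => hij (hinj k e))
  have hone : ∀ k, 1 ≤ ‖σ (b k (o k)) - σ (b k 0)‖ := by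
    intro k
    refine hsub k _ _ fun e => ?_
    have := congrArg Fin.val e
    simp [ho] at this
  have hb : ∀ k i, ‖σ (b k i)‖ ≤ C := by
    intro k i
    have h1 := h (Function.update o k i) fun _ => 0
    have h2 : ‖σ (b k i)‖ ≤ ∏ l, ‖σ (b l (Function.update o k i l)) - σ (b l 0)‖ := by
      rw [← mul_prod_erase univ _ (mem_univ k), Function.update_self, h0 k, map_zero, sub_zero]
      have h3 : 1 ≤ ∏ l ∈ univ.erase k, ‖σ (b l (Function.update o k i l)) - σ (b l 0)‖ := by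
        have h4 : ∀ l ∈ univ.erase k, 1 ≤ ‖σ (b l (Function.update o k i l)) - σ (b l 0)‖ := by
          intro l hl
          rw [Function.update_of_ne (ne_of_mem_erase hl)]
          exact hone l
        have h5 := prod_le_prod (s := univ.erase k) (f := fun _ => (1 : ℝ))
          (g := fun l => ‖σ (b l (Function.update o k i l)) - σ (b l 0)‖)
          (fun _ _ => by norm_num) h4
        rwa [prod_const_one] at h5
      have := norm_nonneg (σ (b k i))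
      nlinarith
    have h6 : 0 ≤ ∏ l, ‖σ (b l (Function.update o k i l)) - σ (b l 0)‖ :=
      prod_nonneg fun l _ => norm_nonneg _
    have h7 : ‖σ (b k i)‖ ≤
        ‖σ m‖ ^ 2 * ∏ l, ‖σ (b l (Function.update o k i l)) - σ (b l 0)‖ := by nlinarith
    exact h7.trans h1.le
  refine ⟨fun k => ?_, ⟨hmi, ?_⟩, fun k i => ⟨hbi k i, hb k i⟩⟩
  · have h1 : Fintype.card (Fin (r k + 1)) ≤ hF.toFinset.card := by
      rw [← card_univ]
      refine card_le_card_of_injOn (b k) (fun i _ => ?_) (hinj k).injOn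
      rw [Set.Finite.coe_toFinset]
      exact ⟨hbi k i, hb k i⟩
    rw [Fintype.card_fin] at h1
    show r k ≤ hF.toFinset.card
    omega
  · have h1 := h o fun _ => 0
    have h3 : 1 ≤ ∏ l, ‖σ (b l (o l)) - σ (b l 0)‖ := by
      have h5 := prod_le_prod (s := univ) (f := fun _ => (1 : ℝ))
        (g := fun l => ‖σ (b l (o l)) - σ (b l 0)‖) (fun _ _ => by norm_num) fun l _ => hone l
      rwa [prod_const_one] at h5
    have h4 : ‖σ m‖ ≤ ‖σ m‖ ^ 2 := by nlinarith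
    have h5 : ‖σ m‖ ^ 2 ≤ ‖σ m‖ ^ 2 * ∏ l, ‖σ (b l (o l)) - σ (b l 0)‖ := by nlinarith
    exact (h4.trans h5).trans h1.le

end finite

end Pool.Agent.J4H54.CV
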