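import Pool.Agent.J4H54.KT.Ext
set_option autoImplicit false

/-!
From the rows to the columns.
-/

namespace Pool.Agent.J4H54.CV

open Finset

open Pool.Agent.J4H54.KT (vv ext sum_ext ext_injective)

theorem exists_diff {m : ℕ} (c : Fin (m + 1) → ℝ) (hc : ∑ κ, c κ = 0) :
    ∃ d : Fin m → ℝ, ∀ κ, c κ = ∑ t, d t * ((vv t κ : ℤ) : ℝ) := by
  set D : Fin (m + 1) → ℝ := fun κ => ∑ k ∈ Iic κ, c k with hD
  set D' : Fin (m + 1) → ℝ := fun κ => ∑ k ∈ Iio κ, c k with hD'
  have h1 : ∀ t : Fin m, D' t.succ = D t.castSucc := by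
    intro t
    simp only [hD, hD']
    refine sum_congr ?_ fun _ _ => rfl
    ext x
    simp only [mem_Iio, mem_Iic, Fin.lt_def, Fin.le_def, Fin.val_succ, Fin.val_castSucc]
    omega
  have h2 : D (Fin.last m) = 0 := by
    simp only [hD]
    rw [← hc]
    refine sum_congr ?_ fun _ _ => rfl
    ext x
    simp [Fin.le_last]
  have h3 : D' 0 = 0 := by
    simp only [hD']
    refine sum_eq_zero fun x hx => ?_
    exact absurd (mem_Iio.1 hx) (Fin.not_lt_zero x)
  have h4 : ∀ κ, D κ = c κ + D' κ := by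
    intro κ
    simp only [hD, hD']
    rw [← Iio_insert, sum_insert (by simp)]
  refine ⟨fun t => D t.castSucc, fun κ => ?_⟩
  have e1 : ∑ t : Fin m, D t.castSucc * (if κ = t.castSucc then 1 else 0) = D κ := by
    have h5 := Fin.sum_univ_castSucc fun k => D k * (if κ = k then (1 : ℝ) else 0)
    rw [h2, zero_mul, add_zero] at h5
    rw [← h5]
    simp
  have e2 : ∑ t : Fin m, D t.castSucc * (if κ = t.succ then 1 else 0) = D' κ := by
    have h5 := Fin.sum_univ_succ fun k => D' k * (if κ = k then (1 : ℝ) else 0)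
    rw [h3, zero_mul, zero_add] at h5
    simp only [h1] at h5
    rw [← h5]
    simp
  unfold vv
  push_cast
  simp only [mul_sub, sum_sub_distrib]
  rw [e1, e2, h4]
  ring

variable {n : ℕ} {r : Fin (n + 1) → ℕ}

theorem inj_of_total (P : (∀ l, Fin (r l + 1)) → (∀ l, Fin (r l + 1)) → ℝ)
    (hT : ∀ S : (∀ l, Fin (r l + 1)) → ℝ, S ≠ 0 → (∀ k l, ∑ κ, S (Function.update k l κ) = 0) →
      ∃ c : ∀ l, Fin (r l + 1) → ℝ, (∀ l, ∑ i, c l i = 0) ∧
        ∑ i, S i * ∑ j : (∀ l, Fin (r l + 1)), (∏ l, c l (j l)) * P i j ≠ 0)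
    (c : (∀ l, Fin (r l)) → ℝ)
    (hc : ∀ i, ∑ t, (∑ k, ((∏ l, vv (t l) (k l) : ℤ) : ℝ) * P i k) * c t = 0) : c = 0 := by
  classical
  by_contra hne
  set M : (∀ l, Fin (r l + 1)) → (∀ l, Fin (r l)) → ℝ := fun i t =>
    ∑ k, ((∏ l, vv (t l) (k l) : ℤ) : ℝ) * P i k with hM
  set B : Matrix (∀ l, Fin (r l)) (∀ l, Fin (r l)) ℝ := Matrix.of fun t t' =>
    ∑ i, ((∏ l, vv (t l) (i l) : ℤ) : ℝ) * M i t' with hB
  have hBc : B.mulVec c = 0 := by
    funext t
    rw [Matrix.mulVec, dotProduct, Pi.zero_apply]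
    simp only [hB, Matrix.of_apply, sum_mul]
    rw [sum_comm]
    refine sum_eq_zero fun i _ => ?_
    simp only [mul_assoc]
    rw [← mul_sum, hc i, mul_zero]
  have hdet : B.det = 0 := Matrix.exists_mulVec_eq_zero_iff.1 ⟨c, hne, hBc⟩
  obtain ⟨v, hv0, hv⟩ := Matrix.exists_vecMul_eq_zero_iff.2 hdet
  have hS : ∀ t', ∑ i, ext v i * M i t' = 0 := by
    intro t'
    have h1 := congrFun hv t'
    rw [Matrix.vecMul, dotProduct, Pi.zero_apply] at h1
    rw [← h1]
    simp only [hB, Matrix.of_apply, mul_sum]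
    rw [sum_comm]
    refine sum_congr rfl fun i _ => ?_
    unfold Pool.Agent.J4H54.KT.ext
    rw [sum_mul]
    exact sum_congr rfl fun t _ => by ring
  obtain ⟨w, hw0, hw⟩ := hT (ext v) (fun h => hv0 (ext_injective h)) (sum_ext v)
  choose d hd using fun l => exists_diff (w l) (hw0 l)
  apply hw
  have h1 : ∀ k : (∀ l, Fin (r l + 1)), ∏ l, w l (k l) =
      ∑ t : (∀ l, Fin (r l)), (∏ l, d l (t l)) * ((∏ l, vv (t l) (k l) : ℤ) : ℝ) := by
    intro k
    simp only [hd]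
    rw [prod_univ_sum, Fintype.piFinset_univ]
    refine sum_congr rfl fun t _ => ?_
    rw [prod_mul_distrib]
    push_cast
    rfl
  have h2 : ∀ i, ∑ j : (∀ l, Fin (r l + 1)), (∏ l, w l (j l)) * P i j =
      ∑ t : (∀ l, Fin (r l)), (∏ l, d l (t l)) * M i t := by
    intro i
    simp only [h1, hM, sum_mul, mul_sum]
    rw [sum_comm]
    exact sum_congr rfl fun t _ => sum_congr rfl fun j _ => by ring
  have h3 : ∑ i, ext v i * ∑ t : (∀ l, Fin (r l)), (∏ l, d l (t l)) * M i t =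
      ∑ t : (∀ l, Fin (r l)), (∏ l, d l (t l)) * ∑ i, ext v i * M i t := by
    simp only [mul_sum]
    rw [sum_comm]
    exact sum_congr rfl fun t _ => sum_congr rfl fun j _ => by ring
  simp only [h2]
  rw [h3]
  exact sum_eq_zero fun t _ => by rw [hS, mul_zero]

end Pool.Agent.J4H54.CV
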