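import Pool.Agent.J4H54.CV.Tot
import Pool.Agent.J4H54.CV.Lin
import Pool.Agent.J4H54.KT.Hyp
import Pool.Agent.N686.DI.Main
set_option autoImplicit false

/-!
The hypersurfaces `λ ∏_k ∏_i (x_k - a_{k,i}) = 1`: smoothness, tori, regulators, with a hypothesis
on the critical values.
-/

namespace Pool.Agent.J4H54.CV

open Pool.Agent.TH826.MK (KQ symb Torus pairing circ norm_circ)

open Pool.Agent.TH826.UH (NZ)

open Pool.Agent.TH826.MH (CRing eqn fpol ent ux mkT mkT_ux qq eqn_eq pderiv_eqn eval_aeval)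

open Pool.Agent.J4H54.KT (om co vv rd WW prod_WW contDiff_co pair_expand exists_det_ne_zero)

open Pool.Agent.N686.DI (exists_min_crit eval_prod_sub)

open Finset

open scoped Real

variable {K : Type*} [Field K] {n : ℕ} {r : Fin (n + 1) → ℕ} {σ : K →+* ℂ} {lam : K}
  {a : ∀ k, Fin (r k + 1) → K} {R L : Fin (n + 1) → ℝ}

/-- Smoothness: there is no critical value `1`. -/
theorem smooth (hR : ∀ k, 0 < R k)
    (hcrit : ∀ k, ∀ ξ : ℂ, (Polynomial.derivative (∏ i, (Polynomial.X -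
      Polynomial.C (σ (a k i))))).eval ξ = 0 → R k < ‖∏ i, (ξ - σ (a k i))‖)
    (hN : 1 ≤ ‖σ lam‖ * ∏ k, R k) (x : Fin (n + 1) → ℂ)
    (hx : MvPolynomial.eval₂ σ x (eqn lam a) = 0) :
    ∃ k, MvPolynomial.eval₂ σ x (MvPolynomial.pderiv k (eqn lam a)) ≠ 0 := by
  have hmap : ∀ k, (qq (a k)).map σ = ∏ i, (Polynomial.X - Polynomial.C (σ (a k i))) := by
    intro k
    unfold qq
    rw [Polynomial.map_prod]
    refine Finset.prod_congr rfl fun i _ => ?_
    rw [Polynomial.map_sub, Polynomial.map_X, Polynomial.map_C]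
  have h1 : σ lam * ∏ k, (qq (a k)).eval₂ σ (x k) = 1 := by
    rw [eqn_eq lam a 0, MvPolynomial.eval₂_sub, MvPolynomial.eval₂_mul,
      MvPolynomial.eval₂_mul, MvPolynomial.eval₂_C, MvPolynomial.eval₂_one, eval_aeval,
      MvPolynomial.eval₂_prod] at hx
    rw [← Finset.mul_prod_erase _ _ (Finset.mem_univ 0)]
    simp only [eval_aeval] at hx
    linear_combination hx
  have h0 : σ lam ≠ 0 ∧ ∏ k, (qq (a k)).eval₂ σ (x k) ≠ 0 := by
    rw [← mul_ne_zero_iff, h1]
    exact one_ne_zero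
  by_contra hcon
  push Not at hcon
  have hcr : ∀ k, (Polynomial.derivative (∏ i, (Polynomial.X -
      Polynomial.C (σ (a k i))))).eval (x k) = 0 := by
    intro k
    have h2 := hcon k
    rw [pderiv_eqn, MvPolynomial.eval₂_mul, MvPolynomial.eval₂_mul, MvPolynomial.eval₂_C,
      eval_aeval, MvPolynomial.eval₂_prod] at h2
    simp only [eval_aeval] at h2
    have h4 : ∏ l ∈ Finset.univ.erase k, (qq (a l)).eval₂ σ (x l) ≠ 0 :=
      Finset.prod_ne_zero_iff.2 fun l _ => (Finset.prod_ne_zero_iff.1 h0.2) l (Finset.mem_univ l)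
    rw [← hmap, Polynomial.derivative_map, Polynomial.eval_map]
    rcases mul_eq_zero.1 h2 with h5 | h5
    · exact absurd h5 h0.1
    · rcases mul_eq_zero.1 h5 with h6 | h6
      · exact h6
      · exact absurd h6 h4
  have h6 : ∀ k, (qq (a k)).eval₂ σ (x k) = ∏ i, (x k - σ (a k i)) := by
    intro k
    rw [← Polynomial.eval_map, hmap, eval_prod_sub]
  simp only [h6] at h1
  have h2 := congrArg norm h1
  rw [norm_mul, norm_prod, norm_one] at h2
  have h3 : ∏ k, R k < ∏ k, ‖∏ i, (x k - σ (a k i))‖ :=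
    prod_lt_prod (fun k _ => hR k) (fun k _ => (hcrit k _ (hcr k)).le)
      ⟨0, mem_univ _, hcrit 0 _ (hcr 0)⟩
  have hl : 0 < ‖σ lam‖ := norm_pos_iff.2 h0.1
  have h4 := mul_lt_mul_of_pos_left h3 hl
  linarith

theorem om_zero : (om (0 : Fin (n + 1)) : ℝ) = -(2 * π) := by
  show -(1 : ℝ) * (2 * π) = -(2 * π)
  ring

theorem om_succ (j : Fin n) : (om j.succ : ℝ) = 2 * π := by
  show -(-1 : ℝ) * (2 * π) = 2 * π
  ring

theorem wp_WW {N : ℂ} (hN : N ≠ 0) {R' : Fin (n + 1) → ℝ} (hR' : ∀ l, 0 < R' l) (l : Fin (n + 1)) :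
    Wp (WW N R' l) (rd ‖N‖ R' l) (om l) := by
  refine Fin.cases ?_ (fun j => ?_) l
  · rw [om_zero]
    exact wp_inv hN (prod_pos fun j _ => by
      have := hR' j.succ
      positivity)
  · rw [om_succ]
    exact wp_circ (by
      have := hR' j.succ
      positivity)

theorem prod_rd {L' : ℝ} {R' : Fin (n + 1) → ℝ} (hR' : ∀ l, 0 < R' l) :
    ∏ l, rd L' R' l = L'⁻¹ := by
  have hP : 0 < ∏ j : Fin n, 8 / 9 * R' j.succ := prod_pos fun j _ => by
    have := hR' j.succ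
    positivity
  rw [Fin.prod_univ_succ]
  have h1 : rd L' R' 0 = (L' * ∏ j : Fin n, 8 / 9 * R' j.succ)⁻¹ := rfl
  have h2 : ∏ j : Fin n, rd L' R' j.succ = ∏ j : Fin n, 8 / 9 * R' j.succ := rfl
  rw [h1, h2, mul_inv, mul_assoc, inv_mul_cancel₀ hP.ne', mul_one]

theorem exists_tori (hinj : ∀ k, Function.Injective (a k)) (hR : ∀ k, 0 < R k)
    (hcrit : ∀ k, ∀ ξ : ℂ, (Polynomial.derivative (∏ i, (Polynomial.X -
      Polynomial.C (σ (a k i))))).eval ξ = 0 → R k < ‖∏ i, (ξ - σ (a k i))‖)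
    (hL1 : ∀ k, 1 ≤ L k)
    (hLd : ∀ k, ∃ d, (∀ i j, i ≠ j → Real.log ‖σ (a k i) - σ (a k j)‖ ≤ d) ∧
      (r k + 1) * d - Real.log (R k) ≤ L k) {k₀ k₁ : Fin (n + 1)} (hk : k₀ ≠ k₁)
    (h : 3 ^ (n + 1) * ∏ k ∈ (univ.erase k₀).erase k₁, Real.sqrt (L k) ≤ ‖σ lam‖ * ∏ k, R k) :
    ∃ Γ : (∀ k, Fin (r k)) → Torus (CRing lam a) n,
      (∀ t θ (x : K), (Γ t).e θ (fpol lam a (MvPolynomial.C x)) = σ x) ∧
      (Matrix.of fun t i : (∀ k, Fin (r k)) => (Γ t).reg (symb (ent lam a i))).det ≠ 0 := by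
  classical
  by_cases hr : ∃ k, r k = 0
  · obtain ⟨k, hk⟩ := hr
    have hE : IsEmpty (∀ k, Fin (r k)) := ⟨fun t => by
      have := (t k).isLt
      omega⟩
    exact ⟨fun t => (hE.false t).elim, fun t => (hE.false t).elim, by
      rw [Matrix.det_isEmpty]
      exact one_ne_zero⟩
  push Not at hr
  have hRp : 0 < ∏ k, R k := prod_pos fun k _ => hR k
  have hP1 : 1 ≤ ∏ k ∈ (univ.erase k₀).erase k₁, Real.sqrt (L k) := by
    have h1 := prod_le_prod (s := (univ.erase k₀).erase k₁) (f := fun _ => (1 : ℝ))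
      (g := fun k => Real.sqrt (L k)) (fun k _ => zero_le_one)
      (fun k _ => Real.one_le_sqrt.2 (hL1 k))
    rwa [prod_const_one] at h1
  have h3 : (3 : ℝ) ^ (n + 1) ≤ ‖σ lam‖ * ∏ k, R k := by
    refine le_trans ?_ h
    have : (0 : ℝ) < 3 ^ (n + 1) := by positivity
    nlinarith
  have hN0 : σ lam ≠ 0 := by
    intro h0
    rw [h0, norm_zero, zero_mul] at h3
    have : (0 : ℝ) < 3 ^ (n + 1) := by positivity
    linarith
  set N : ℂ := σ lam with hN
  have hNp : 0 < ‖N‖ := norm_pos_iff.2 hN0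
  -- the factors
  have hfac : ∀ k, ∃ (V : Set ℂ) (x : Fin (r k + 1) → ℂ → ℂ)
      (E : Fin (r k + 1) → Fin (r k + 1) → ℂ → ℂ), Fac (fun i => σ (a k i)) (R k) V x E := by
    intro k
    have hi : Function.Injective fun i => σ (a k i) := σ.injective.comp (hinj k)
    obtain ⟨ξ, hξ, hξ0, hξm⟩ := exists_min_crit (Nat.pos_of_ne_zero (hr k)) _ hi
    exact exists_fac (Nat.succ_pos _) _ hi (hR k) (hcrit k ξ hξ) fun z hz => by
      rw [eval_prod_sub]
      exact hξm z hz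
  choose V x E hF using hfac
  set R' : Fin (n + 1) → ℝ := fun l => 3 / 8 * R l with hR'def
  have hR' : ∀ l, 0 < R' l := fun l => by
    have := hR l
    simp only [hR'def]
    positivity
  have h89 : ∀ l, 8 / 9 * R' l = R l / 3 := fun l => by
    simp only [hR'def]
    ring
  have hW := wp_WW hN0 hR'
  have hρ : ∀ l, rd ‖N‖ R' l ≤ R l / 3 := by
    intro l
    refine Fin.cases ?_ (fun j => ?_) l
    · show (‖N‖ * ∏ j : Fin n, 8 / 9 * R' j.succ)⁻¹ ≤ R 0 / 3
      simp only [h89]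
      have h0 := hR 0
      have hpos : 0 < ∏ j : Fin n, R j.succ / 3 := prod_pos fun j _ => by
        have := hR j.succ
        positivity
      rw [inv_le_comm₀ (by positivity) (by positivity), ← one_div, div_le_iff₀ (by positivity)]
      have e1 : ‖N‖ * (∏ j : Fin n, R j.succ / 3) * (R 0 / 3) =
          ‖N‖ * (∏ k, R k) / 3 ^ (n + 1) := by
        rw [Fin.prod_univ_succ, prod_div_distrib, prod_const, card_univ, Fintype.card_fin]
        field_simp
        ring
      rw [e1, le_div_iff₀ (by positivity), one_mul]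
      exact h3
    · show 8 / 9 * R' j.succ ≤ R j.succ / 3
      rw [h89]
  have hρR : ∀ l, rd ‖N‖ R' l ≤ R l := fun l => by
    have := hρ l
    have := hR l
    linarith
  have hq : ∏ l, (rd ‖N‖ R' l / R l) = (‖N‖ * ∏ k, R k)⁻¹ := by
    rw [prod_div_distrib, prod_rd hR', mul_inv]
    rfl
  have hL' : 3 ^ (n + 1) * (∏ l ∈ (univ.erase k₀).erase k₁, Real.sqrt (L l)) *
      ∏ l, (rd ‖N‖ R' l / R l) ≤ 1 := by
    rw [hq, ← div_eq_mul_inv, div_le_one (by positivity)]
    exact h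
  -- the tori
  set X : ∀ l, Fin (r l + 1) → ℝ → ℂ := fun l i s => x l i (WW N R' l s) with hX
  have hsm : ∀ l k, ContDiff ℝ 2 (X l k) := fun l k => (hF l).smooth_x (hW l) (hρR l) k
  have hper : ∀ l k s, X l k (s + 1) = X l k s := fun l k s => by
    simp only [hX]
    rw [(hW l).per]
  have hprod : ∀ l k s, ∏ i, (X l k s - σ (a l i)) = WW N R' l s := fun l k s =>
    (hF l).prod k _ ((hF l).mem (hW l) (hρR l) s)
  set xx : (∀ l, Fin (r l + 1)) → (Fin n → ℝ) → (Fin (n + 1) → ℂ) := fun i θ l =>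
    X l (i l) (co θ l) with hxx
  have hxc : ∀ i, ContDiff ℝ 2 (xx i) := fun i => contDiff_pi.2 fun l =>
    (hsm l (i l)).comp (contDiff_pi.1 contDiff_co l)
  have hxp : ∀ i θ j, xx i (θ + Pi.single j 1) = xx i θ := by
    intro i θ j
    funext l
    simp only [hxx]
    refine Fin.cases ?_ (fun m => ?_) l
    · show X 0 (i 0) (∑ m, (θ + Pi.single j 1 : Fin n → ℝ) m) = X 0 (i 0) (∑ m, θ m)
      have h1 : ∑ m, (θ + Pi.single j 1 : Fin n → ℝ) m = ∑ m, θ m + 1 := by
        simp [sum_add_distrib]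
      rw [h1, hper]
    · show X m.succ (i m.succ) ((θ + Pi.single j 1 : Fin n → ℝ) m) = X m.succ (i m.succ) (θ m)
      by_cases hm : m = j
      · subst hm
        rw [Pi.add_apply, Pi.single_eq_same, hper]
      · rw [Pi.add_apply, Pi.single_eq_of_ne hm, add_zero]
  have hxe : ∀ i θ, σ lam * ∏ l, ∏ k, (xx i θ l - σ (a l k)) = 1 := by
    intro i θ
    have h1 : ∀ l, ∏ k, (xx i θ l - σ (a l k)) = WW N R' l (co θ l) := fun l =>
      hprod l (i l) (co θ l)
    simp only [h1]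
    exact prod_WW hN0 hR' θ
  -- the regulators
  have hreg : ∀ i t, (mkT (xx i) (hxc i) (hxp i) (hxe i)).reg (symb (ent lam a t)) =
      ∑ k : ∀ l, Fin (r l + 1), ((∏ l, vv (t l) (k l) : ℤ) : ℝ) *
        PR (fun l i => σ (a l i)) x (WW N R') i k := by
    intro i t
    rw [Torus.reg_symb]
    have h1 := pair_expand (mkT (xx i) (hxc i) (hxp i) (hxe i)) (fun l k => ux lam a l k) t
    refine Eq.trans h1 (sum_congr rfl fun k _ => ?_)
    congr 1
    unfold Torus.pair PR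
    congr 1
    funext l
    rw [mkT_ux]
    rfl
  obtain ⟨f, hf⟩ := exists_det_ne_zero
    (fun i t => (mkT (xx i) (hxc i) (hxp i) (hxe i)).reg (symb (ent lam a t))) (fun c hc => by
      simp only [hreg] at hc
      refine inj_of_total (fun i k => PR (fun l i => σ (a l i)) x (WW N R') i k)
        (fun S hS0 hS => ?_) c hc
      obtain ⟨w, hw1, hw2, hw3⟩ := exists_best hS0
      have hw0 := best_sum hw1 hw3 hw2 hS
      refine ⟨w, hw0, ?_⟩
      refine total_ne hF hW hρ hk hL' hw1 hw3 hw0 hw2 fun l => ?_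
      obtain ⟨d, hd1, hd2⟩ := hLd l
      have h4 := (hF l).QF_le (hw0 l) (hw1 l) hd1
      push_cast at h4
      linarith)
  refine ⟨fun t => mkT (xx (f t)) (hxc _) (hxp _) (hxe _), fun t θ y => ?_, hf⟩
  refine (Pool.Agent.TH826.MH.evX_fpol (hxe (f t) θ) _).trans ?_
  simp

end Pool.Agent.J4H54.CV
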