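import Pool.Agent.J4H54.CV.Fac
import Pool.Agent.J4H54.KT.Est
import Pool.Agent.J4H54.K2.Ind
set_option autoImplicit false

/-!
Loops over circles: windings, means, and the bounds for the deviations from the means.
-/

namespace Pool.Agent.J4H54.CV

open MeasureTheory Set Filter Topology Metric

open Pool.Agent.TH826.MK (circ norm_circ circ_add_one contDiff_circ hasDerivAt_circ)

open Pool.Agent.TH826.UH (NZ nz_circ)

open Pool.Agent.N686.DI (contDiff_gc int_deriv mean_re)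

open Pool.Agent.N686.EL (circ_eq_mul circ_add)

open Pool.Agent.J4H54.KT (Lo ld qt pt)

/-- a loop which runs through a circle with constant angular velocity -/
structure Wp (W : ℝ → ℂ) (ρ ω : ℝ) : Prop where
  pos : 0 < ρ
  smooth : ContDiff ℝ 2 W
  per : ∀ s, W (s + 1) = W s
  norm : ∀ s, ‖W s‖ = ρ
  der : ∀ s, HasDerivAt W ((ω : ℂ) * Complex.I * W s) s
  mean : ∀ {V : Set ℂ} {g : ℂ → ℂ}, IsOpen V → (∀ z : ℂ, ‖z‖ ≤ ρ → z ∈ V) →
    DifferentiableOn ℂ g V → ∫ s in (0 : ℝ)..1, (g (W s)).re = (g 0).re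

theorem wp_circ {ρ : ℝ} (hρ : 0 < ρ) : Wp (circ ρ) ρ (2 * Real.pi) := by
  refine ⟨hρ, contDiff_circ ρ, circ_add_one ρ, norm_circ hρ.le, fun s => ?_,
    fun hVo hV hg => mean_re hρ hV hg hVo⟩
  refine (hasDerivAt_circ ρ s).congr_deriv ?_
  push_cast
  ring

theorem wp_inv {N : ℂ} (hN : N ≠ 0) {ρ : ℝ} (hρ : 0 < ρ) :
    Wp (fun s => (N * circ ρ s)⁻¹) (‖N‖ * ρ)⁻¹ (-(2 * Real.pi)) := by
  obtain ⟨v1, v2, v3, v4⟩ := Pool.Agent.J4H54.K2.inv_loop hN hρ
  have hNp : 0 < ‖N‖ := norm_pos_iff.2 hN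
  have hpos : 0 < (‖N‖ * ρ)⁻¹ := by positivity
  refine ⟨hpos, v1, v2, v3, v4, fun {V g} hVo hV hg => ?_⟩
  obtain ⟨τ, hτ⟩ := Pool.Agent.Y775.CC.exists_circ (v3 0)
  have h1 : ∀ s, (N * circ ρ s)⁻¹ = circ (‖N‖ * ρ)⁻¹ (τ - s) := by
    intro s
    have e1 : circ 1 τ = circ 1 (τ - s) * circ 1 s := by
      rw [← circ_add]
      congr 1
      ring
    have hs := (nz_circ one_pos).ne_zero s
    have hN' : (ρ : ℂ) ≠ 0 := by exact_mod_cast hρ.ne'
    rw [circ_eq_mul, e1, circ_eq_mul ρ 0] at hτ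
    have e2 : circ 1 0 = 1 := by
      unfold circ
      simp
    rw [e2, mul_one] at hτ
    rw [circ_eq_mul ρ s, circ_eq_mul (‖N‖ * ρ)⁻¹ (τ - s)]
    have e3 : (((‖N‖ * ρ)⁻¹ : ℝ) : ℂ) * circ 1 (τ - s) =
        (((‖N‖ * ρ)⁻¹ : ℝ) : ℂ) * (circ 1 (τ - s) * circ 1 s) * (circ 1 s)⁻¹ := by
      field_simp
    rw [e3, hτ]
    field_simp
  simp only [h1]
  rw [intervalIntegral.integral_comp_sub_left (fun t => (g (circ (‖N‖ * ρ)⁻¹ t)).re)]
  have hp : Function.Periodic (fun t => (g (circ (‖N‖ * ρ)⁻¹ t)).re) 1 := fun t => by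
    simp only [circ_add_one]
  have h2 := hp.intervalIntegral_add_eq (τ - 1) 0
  rw [sub_add_cancel, zero_add] at h2
  rw [sub_zero, h2]
  exact mean_re hpos hV hg hVo

theorem exists_bound {f : ℝ → ℝ} (hf : Continuous f) (hp : ∀ s, f (s + 1) = f s) :
    ∃ b, ∀ s, f s ≤ b := by
  obtain ⟨b, hb⟩ := (isCompact_Icc (a := (0 : ℝ)) (b := 1)).exists_bound_of_continuousOn
    hf.continuousOn
  refine ⟨b, fun s => ?_⟩
  have hp' : Function.Periodic f 1 := hp
  obtain ⟨y, hy, e⟩ := hp'.exists_mem_Ico₀ one_pos s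
  rw [e]
  exact (le_abs_self _).trans (hb y ⟨hy.1, hy.2.le⟩)

section

variable {N : ℕ} {β : Fin N → ℂ} {R : ℝ} {V : Set ℂ} {x : Fin N → ℂ → ℂ}
  {E : Fin N → Fin N → ℂ → ℂ} (h : Fac β R V x E) {W : ℝ → ℂ} {ρ ω : ℝ} (hW : Wp W ρ ω)
  (hρ : ρ ≤ R)

include h hW hρ

theorem Fac.mem (s : ℝ) : W s ∈ V := h.disc _ (by rw [hW.norm]; exact hρ)

theorem Fac.smooth_e (i j : Fin N) : ContDiff ℝ 2 fun s => E i j (W s) :=
  contDiff_gc h.disc (h.dE i j) h.isOpen hW.smooth fun t => by rw [hW.norm]; exact hρ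

theorem Fac.smooth_x (i : Fin N) : ContDiff ℝ 2 fun s => x i (W s) :=
  contDiff_gc h.disc (h.dx i) h.isOpen hW.smooth fun t => by rw [hW.norm]; exact hρ

theorem Fac.der_e (i j : Fin N) (s : ℝ) : HasDerivAt (fun s => E i j (W s))
    ((ω : ℂ) * Complex.I * (W s * deriv (E i j) (W s))) s := by
  have h1 : HasDerivAt (E i j) (deriv (E i j) (W s)) (W s) :=
    ((h.dE i j).differentiableAt (h.isOpen.mem_nhds (h.mem hW hρ s))).hasDerivAt
  have h2 := h1.comp s (hW.der s)
  refine h2.congr_deriv ?_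
  ring

omit h hρ in
theorem W_ne (s : ℝ) : W s ≠ 0 := norm_pos_iff.1 (by rw [hW.norm]; exact hW.pos)

theorem Fac.G_ne (i j : Fin N) (s : ℝ) : x i (W s) - β j ≠ 0 := by
  rw [h.eq i j _ (h.mem hW hρ s)]
  refine mul_ne_zero ?_ (Complex.exp_ne_zero _)
  split_ifs
  · exact W_ne hW s
  · exact one_ne_zero

theorem Fac.nz (i j : Fin N) : NZ fun s => x i (W s) - β j :=
  ⟨(h.smooth_x hW hρ i).sub contDiff_const, h.G_ne hW hρ i j⟩

theorem Fac.ld_eq (i j : Fin N) (s : ℝ) : ld (fun s => x i (W s) - β j) s =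
    ((if i = j then ω else 0 : ℝ) : ℂ) * Complex.I +
      (ω : ℂ) * Complex.I * (W s * deriv (E i j) (W s)) := by
  have h1 : ∀ s, x i (W s) - β j = (if i = j then W s else 1) * Complex.exp (E i j (W s)) :=
    fun s => h.eq i j _ (h.mem hW hρ s)
  have h2 : HasDerivAt (fun s => if i = j then W s else 1)
      (((if i = j then ω else 0 : ℝ) : ℂ) * Complex.I * (if i = j then W s else 1)) s := by
    by_cases hij : i = j
    · simp only [if_pos hij]
      exact hW.der s
    · simp only [if_neg hij]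
      simpa using hasDerivAt_const s (1 : ℂ)
  have h3 := h2.mul (h.der_e hW hρ i j s).cexp
  have h4 := h.G_ne hW hρ i j s
  have h5 : HasDerivAt (fun s => x i (W s) - β j) _ s :=
    h3.congr_of_eventuallyEq (Eventually.of_forall h1)
  unfold ld
  rw [h5.deriv, div_eq_iff h4, h1]
  ring

theorem Fac.log_eq (i j : Fin N) (s : ℝ) : Real.log ‖x i (W s) - β j‖ =
    (if i = j then Real.log ρ else 0) + (E i j (W s)).re := by
  rw [h.eq i j _ (h.mem hW hρ s), norm_mul, Complex.norm_exp, Real.log_mul _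
    (Real.exp_pos _).ne', Real.log_exp]
  · congr 1
    by_cases hij : i = j
    · rw [if_pos hij, if_pos hij, hW.norm]
    · rw [if_neg hij, if_neg hij, norm_one, Real.log_one]
  · rw [norm_ne_zero_iff]
    split_ifs
    · exact W_ne hW s
    · exact one_ne_zero

theorem Fac.exists_lo (i j : Fin N) : ∃ b c, Lo (fun s => x i (W s) - β j)
    (if i = j then ω else 0) ((E i j 0).re + if i = j then Real.log ρ else 0) b c := by
  have hnz := h.nz hW hρ i j
  have hper : ∀ s, x i (W (s + 1)) - β j = x i (W s) - β j := fun s => by rw [hW.per]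
  set m : ℝ := (E i j 0).re + if i = j then Real.log ρ else 0 with hm
  set w : ℝ := if i = j then ω else 0 with hw
  have c1 : Continuous fun s => |Real.log ‖x i (W s) - β j‖ - m| :=
    (hnz.cont_log.sub continuous_const).abs
  have c2 : Continuous fun s => ‖ld (fun s => x i (W s) - β j) s - w * Complex.I‖ :=
    (hnz.cont_ld.sub continuous_const).norm
  obtain ⟨b, hb⟩ := exists_bound c1 fun s => by rw [hper]
  obtain ⟨c, hc⟩ := exists_bound c2 fun s => by
    rw [Pool.Agent.J4H54.KT.per_ld hper]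
  have cE : Continuous fun s => E i j (W s) := (h.smooth_e hW hρ i j).continuous
  refine ⟨b, c, hnz, hper, ?_, ?_, hb, hc⟩
  · simp only [h.ld_eq hW hρ i j]
    have hd : ∀ s, (ω : ℂ) * Complex.I * (W s * deriv (E i j) (W s)) =
        deriv (fun s => E i j (W s)) s := fun s => (h.der_e hW hρ i j s).deriv.symm
    simp only [hd]
    have cd : Continuous (deriv fun s => E i j (W s)) :=
      (h.smooth_e hW hρ i j).continuous_deriv (by norm_num)
    rw [intervalIntegral.integral_add (continuous_const.intervalIntegrable _ _)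
      (cd.intervalIntegrable _ _), int_deriv (h.smooth_e hW hρ i j) (fun t => by rw [hW.per]),
      add_zero, intervalIntegral.integral_const]
    simp [hw]
  · simp only [h.log_eq hW hρ i j]
    have cre : Continuous fun s => (E i j (W s)).re := Complex.continuous_re.comp cE
    rw [intervalIntegral.integral_add (continuous_const.intervalIntegrable _ _)
      (cre.intervalIntegrable _ _), hW.mean h.isOpen (fun z hz => h.disc z (hz.trans hρ))
      (h.dE i j), intervalIntegral.integral_const, hm]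
    simp [add_comm]

theorem Fac.vq {c : Fin N → ℝ} (hc : ∑ i, c i = 0) {y : ℝ} (hy : (ρ / R) ^ 2 ≤ y) (hy1 : y < 1)
    {t : ℝ} (ht : t ∈ Icc (0 : ℝ) 1) (s : ℝ) :
    ∑ i, ‖∑ j, (c j : ℂ) * (qt (fun s => x i (W s) - β j) t s - ((if i = j then ω else 0 : ℝ) : ℂ))‖
      ^ 2 ≤ ω ^ 2 * (2 * QF E R c * (y / (1 - y) ^ 2)) := by
  have hy' : ‖W s / R‖ ^ 2 ≤ y := by
    rw [norm_div, hW.norm, Complex.norm_real, Real.norm_of_nonneg h.pos.le]
    exact hy
  refine le_trans ?_ (mul_le_mul_of_nonneg_left (h.der c hc y (W s) hy1 hy') (sq_nonneg ω))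
  rw [Finset.mul_sum]
  refine Finset.sum_le_sum fun i _ => ?_
  set z : ℂ := ∑ j, (c j : ℂ) * (W s * deriv (E i j) (W s)) with hz
  have e1 : ∀ j, qt (fun s => x i (W s) - β j) t s - ((if i = j then ω else 0 : ℝ) : ℂ) =
      (ω : ℂ) * (((W s * deriv (E i j) (W s)).re : ℂ) +
        Complex.I * (t * ((W s * deriv (E i j) (W s)).im : ℂ))) := by
    intro j
    unfold qt
    rw [h.ld_eq hW hρ i j]
    simp only [Complex.add_re, Complex.add_im, Complex.mul_re, Complex.mul_im, Complex.ofReal_re,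
      Complex.ofReal_im, Complex.I_re, Complex.I_im]
    push_cast
    ring
  have e2 : ∑ j, (c j : ℂ) * (qt (fun s => x i (W s) - β j) t s -
      ((if i = j then ω else 0 : ℝ) : ℂ)) = (ω : ℂ) * ((z.re : ℂ) + Complex.I * (t * (z.im : ℂ))) := by
    simp only [e1, hz, Complex.re_sum, Complex.im_sum, Complex.re_ofReal_mul,
      Complex.im_ofReal_mul]
    push_cast
    simp only [mul_add, Finset.sum_add_distrib, Finset.mul_sum]
    congr 1
    · exact Finset.sum_congr rfl fun j _ => by ring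
    · exact Finset.sum_congr rfl fun j _ => by ring
  rw [e2, norm_mul, mul_pow, Complex.norm_real, Real.norm_eq_abs, sq_abs]
  refine mul_le_mul_of_nonneg_left ?_ (sq_nonneg ω)
  have e3 : (z.re : ℂ) + Complex.I * (t * (z.im : ℂ)) = ⟨z.re, t * z.im⟩ := by
    apply Complex.ext <;> simp
  rw [e3, ← Complex.normSq_eq_norm_sq, ← Complex.normSq_eq_norm_sq, Complex.normSq_apply,
    Complex.normSq_apply]
  have h5 : t ^ 2 ≤ 1 := by nlinarith [ht.1, ht.2]
  simp only
  nlinarith [sq_nonneg z.im]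

theorem Fac.vp {c : Fin N → ℝ} (hc : ∑ i, c i = 0) {y : ℝ} (hy : (ρ / R) ^ 2 ≤ y) (hy1 : y < 1)
    (t s : ℝ) :
    ∑ i, ‖∑ j, (c j : ℂ) * (pt (fun s => x i (W s) - β j) t s -
      (((E i j 0).re + if i = j then Real.log ρ else 0 : ℝ) : ℂ))‖
      ^ 2 ≤ 2 * QF E R c * (y / (1 - y) ^ 2) := by
  have hy' : ‖W s / R‖ ^ 2 ≤ y := by
    rw [norm_div, hW.norm, Complex.norm_real, Real.norm_of_nonneg h.pos.le]
    exact hy
  refine le_trans ?_ (h.fluct c hc y (W s) hy1 hy')
  refine Finset.sum_le_sum fun i _ => ?_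
  set z : ℂ := ∑ j, (c j : ℂ) * (E i j (W s) - E i j 0) with hz
  have e2 : ∑ j, (c j : ℂ) * (pt (fun s => x i (W s) - β j) t s -
      (((E i j 0).re + if i = j then Real.log ρ else 0 : ℝ) : ℂ)) = (z.re : ℂ) := by
    rw [hz, Complex.re_sum]
    push_cast
    refine Finset.sum_congr rfl fun j _ => ?_
    unfold pt
    rw [h.log_eq hW hρ i j, Complex.re_ofReal_mul, Complex.sub_re]
    push_cast
    ring
  rw [e2, Complex.norm_real, Real.norm_eq_abs]
  exact pow_le_pow_left₀ (abs_nonneg _) (Complex.abs_re_le_norm z) 2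

end

end Pool.Agent.J4H54.CV
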