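import Pool.Agent.N686.DI.Nons
set_option autoImplicit false

/-!
Vectors of functions on a disc with a bounded energy: bounds on smaller discs.
-/

namespace Pool.Agent.J4H54.CV

open MeasureTheory Set Filter Topology Metric

open Pool.Agent.TH826.MK (circ norm_circ circ_add_one contDiff_circ hasDerivAt_circ circ_eq)

open Pool.Agent.TH826.UH (NZ nz_circ)

open Pool.Agent.N686.DI (fc hasSum_fc int_parts contDiff_gc deriv_inv_pow contDiff_inv_pow)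

open Pool.Agent.N686.EL (cs sn circ_eq_mul circ_one_pow_neg)

theorem fc_eq_int (R : ℝ) (g : ℂ → ℂ) (m : ℕ) :
    fc R g m = ∫ t in (0 : ℝ)..1, g (circ R t) * (circ 1 t)⁻¹ ^ m := by
  unfold fc
  refine intervalIntegral.integral_congr fun t _ => ?_
  rw [← circ_one_pow_neg, zpow_neg, zpow_natCast, inv_pow]

/-- The Fourier coefficients of `w g'(w)`. -/
theorem fc_mul_deriv {V : Set ℂ} {R : ℝ} (hV : ∀ z : ℂ, ‖z‖ ≤ R → z ∈ V) (hR : 0 < R) {g : ℂ → ℂ}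
    (hg : DifferentiableOn ℂ g V) (hVo : IsOpen V) (m : ℕ) :
    fc R (fun w => w * deriv g w) m = m * fc R g m := by
  have hc : ContDiff ℝ 2 fun t => g (circ R t) :=
    contDiff_gc hV hg hVo (contDiff_circ R) fun t => (norm_circ hR.le t).le
  have h1 := int_parts hc (contDiff_inv_pow m) (fun t => by rw [circ_add_one])
    (fun t => by rw [circ_add_one])
  have hd : ∀ t, deriv (fun t => g (circ R t)) t =
      2 * Real.pi * Complex.I * (circ R t * deriv g (circ R t)) := by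
    intro t
    have h2 : HasDerivAt g (deriv g (circ R t)) (circ R t) :=
      (hg.differentiableAt (hVo.mem_nhds (hV _ (norm_circ hR.le t).le))).hasDerivAt
    have h3 : HasDerivAt (fun t => g (circ R t)) _ t := h2.comp t (hasDerivAt_circ R t)
    rw [h3.deriv]
    ring
  simp only [hd, deriv_inv_pow] at h1
  rw [fc_eq_int, fc_eq_int]
  have h4 : ∫ t in (0 : ℝ)..1, 2 * (Real.pi : ℂ) * Complex.I * (circ R t * deriv g (circ R t)) *
      (circ 1 t)⁻¹ ^ m = 2 * (Real.pi : ℂ) * Complex.I *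
      ∫ t in (0 : ℝ)..1, (circ R t * deriv g (circ R t)) * (circ 1 t)⁻¹ ^ m := by
    rw [← intervalIntegral.integral_const_mul]
    refine intervalIntegral.integral_congr fun t _ => ?_
    ring
  have h5 : ∫ t in (0 : ℝ)..1, g (circ R t) * (-(2 * (Real.pi : ℂ) * Complex.I * m) *
      (circ 1 t)⁻¹ ^ m) = -(2 * (Real.pi : ℂ) * Complex.I * m) *
      ∫ t in (0 : ℝ)..1, g (circ R t) * (circ 1 t)⁻¹ ^ m := by
    rw [← intervalIntegral.integral_const_mul]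
    refine intervalIntegral.integral_congr fun t _ => ?_
    ring
  rw [h4, h5] at h1
  have h6 : (2 * (Real.pi : ℂ) * Complex.I) ≠ 0 := Complex.two_pi_I_ne_zero
  have h7 : 2 * (Real.pi : ℂ) * Complex.I *
      (∫ t in (0 : ℝ)..1, (circ R t * deriv g (circ R t)) * (circ 1 t)⁻¹ ^ m) =
      2 * (Real.pi : ℂ) * Complex.I * (m * ∫ t in (0 : ℝ)..1, g (circ R t) * (circ 1 t)⁻¹ ^ m) := by
    rw [h1]
    ring
  exact mul_left_cancel₀ h6 h7

theorem geom_le {x : ℝ} (hx0 : 0 ≤ x) (hx1 : x < 1) (M : ℕ) :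
    ∑ m ∈ Finset.Icc 1 M, (m : ℝ) * x ^ m ≤ x / (1 - x) ^ 2 := by
  have h1 : HasSum (fun n : ℕ => (n : ℝ) * x ^ n) (x / (1 - x) ^ 2) :=
    hasSum_coe_mul_geometric_of_norm_lt_one (by rwa [Real.norm_eq_abs, abs_of_nonneg hx0])
  exact sum_le_hasSum _ (fun n _ => by positivity) h1

/-- the Cauchy-Schwarz inequality, with a limit -/
theorem vec_le {N : ℕ} {A : Fin N → ℕ → ℂ} {Q x : ℝ} {z : ℂ} (hz : ‖z‖ ^ 2 ≤ x) (hx1 : x < 1)
    (hA : ∀ M : ℕ, ∑ i, ∑ m ∈ Finset.Icc 1 M, (m : ℝ) / 2 * ‖A i m‖ ^ 2 ≤ Q) {e : ℕ → ℝ}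
    (he0 : ∀ m, 0 ≤ e m) (he : ∀ m, 1 ≤ m → e m ≤ m) {S : Fin N → ℂ}
    (hS : ∀ i, HasSum (fun m : ℕ => (e m : ℂ) * A i m * z ^ m) (S i)) (h0 : e 0 = 0) :
    ∑ i, ‖S i‖ ^ 2 ≤ 2 * Q * (x / (1 - x) ^ 2) := by
  have hx0 : 0 ≤ x := le_trans (by positivity) hz
  have hlim : Tendsto (fun M : ℕ => ∑ i, ‖∑ m ∈ Finset.range (M + 1),
      (e m : ℂ) * A i m * z ^ m‖ ^ 2) atTop (𝓝 (∑ i, ‖S i‖ ^ 2)) := by
    refine tendsto_finsetSum _ fun i _ => ?_
    exact (((hS i).tendsto_sum_nat.comp (tendsto_add_atTop_nat 1)).norm).pow 2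
  refine le_of_tendsto hlim (Eventually.of_forall fun M => ?_)
  have h1 : ∀ i, ‖∑ m ∈ Finset.range (M + 1), (e m : ℂ) * A i m * z ^ m‖ ^ 2 ≤
      (∑ m ∈ Finset.Icc 1 M, (m : ℝ) / 2 * ‖A i m‖ ^ 2) * (2 * (x / (1 - x) ^ 2)) := by
    intro i
    have e1 : ∑ m ∈ Finset.range (M + 1), (e m : ℂ) * A i m * z ^ m =
        ∑ m ∈ Finset.Icc 1 M, (e m : ℂ) * A i m * z ^ m := by
      rw [Finset.range_eq_Ico, Finset.sum_eq_sum_Ico_succ_bot (Nat.succ_pos M)]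
      rw [h0]
      simp
      rfl
    have e2 : ‖∑ m ∈ Finset.Icc 1 M, (e m : ℂ) * A i m * z ^ m‖ ≤
        ∑ m ∈ Finset.Icc 1 M, (Real.sqrt ((m : ℝ) / 2) * ‖A i m‖) *
          (Real.sqrt (2 * m) * ‖z‖ ^ m) := by
      refine (norm_sum_le _ _).trans (Finset.sum_le_sum fun m hm => ?_)
      have hm1 := (Finset.mem_Icc.1 hm).1
      rw [norm_mul, norm_mul, norm_pow, Complex.norm_real, Real.norm_of_nonneg (he0 m)]
      have e3 : Real.sqrt ((m : ℝ) / 2) * Real.sqrt (2 * m) = m := by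
        rw [← Real.sqrt_mul (by positivity)]
        have : (m : ℝ) / 2 * (2 * m) = (m : ℝ) ^ 2 := by ring
        rw [this, Real.sqrt_sq (Nat.cast_nonneg m)]
      have e4 : Real.sqrt ((m : ℝ) / 2) * ‖A i m‖ * (Real.sqrt (2 * m) * ‖z‖ ^ m) =
          (Real.sqrt ((m : ℝ) / 2) * Real.sqrt (2 * m)) * (‖A i m‖ * ‖z‖ ^ m) := by ring
      rw [e4, e3, mul_assoc]
      exact mul_le_mul_of_nonneg_right (he m hm1) (by positivity)
    have e5 : (∑ m ∈ Finset.Icc 1 M, (Real.sqrt ((m : ℝ) / 2) * ‖A i m‖) *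
          (Real.sqrt (2 * m) * ‖z‖ ^ m)) ^ 2 ≤
        (∑ m ∈ Finset.Icc 1 M, (Real.sqrt ((m : ℝ) / 2) * ‖A i m‖) ^ 2) *
          ∑ m ∈ Finset.Icc 1 M, (Real.sqrt (2 * m) * ‖z‖ ^ m) ^ 2 :=
      Finset.sum_mul_sq_le_sq_mul_sq _ _ _
    have e6 : ∑ m ∈ Finset.Icc 1 M, (Real.sqrt ((m : ℝ) / 2) * ‖A i m‖) ^ 2 =
        ∑ m ∈ Finset.Icc 1 M, (m : ℝ) / 2 * ‖A i m‖ ^ 2 := by
      refine Finset.sum_congr rfl fun m _ => ?_
      rw [mul_pow, Real.sq_sqrt (by positivity)]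
    have e7 : ∑ m ∈ Finset.Icc 1 M, (Real.sqrt (2 * m) * ‖z‖ ^ m) ^ 2 ≤
        2 * (x / (1 - x) ^ 2) := by
      have e8 : ∀ m ∈ Finset.Icc 1 M, (Real.sqrt (2 * m) * ‖z‖ ^ m) ^ 2 ≤
          2 * ((m : ℝ) * x ^ m) := by
        intro m _
        rw [mul_pow, Real.sq_sqrt (by positivity), ← pow_mul, mul_comm m 2, pow_mul, mul_assoc]
        refine mul_le_mul_of_nonneg_left (mul_le_mul_of_nonneg_left ?_ (Nat.cast_nonneg m))
          (by norm_num)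
        exact pow_le_pow_left₀ (by positivity) hz m
      refine (Finset.sum_le_sum e8).trans ?_
      rw [← Finset.mul_sum]
      exact mul_le_mul_of_nonneg_left (geom_le hx0 hx1 M) (by norm_num)
    rw [e1]
    refine (pow_le_pow_left₀ (norm_nonneg _) e2 2).trans (e5.trans ?_)
    rw [e6]
    exact mul_le_mul_of_nonneg_left e7 (Finset.sum_nonneg fun m _ => by positivity)
  refine (Finset.sum_le_sum fun i _ => h1 i).trans ?_
  rw [← Finset.sum_mul]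
  have hB : 0 ≤ 2 * (x / (1 - x) ^ 2) := by positivity
  calc (∑ i, ∑ m ∈ Finset.Icc 1 M, (m : ℝ) / 2 * ‖A i m‖ ^ 2) * (2 * (x / (1 - x) ^ 2)) ≤
        Q * (2 * (x / (1 - x) ^ 2)) := mul_le_mul_of_nonneg_right (hA M) hB
    _ = 2 * Q * (x / (1 - x) ^ 2) := by ring

section

variable {N : ℕ} {V : Set ℂ} {R : ℝ} (hR : 0 < R) (hV : ∀ z : ℂ, ‖z‖ ≤ R → z ∈ V)
  (hVo : IsOpen V) {g : Fin N → ℂ → ℂ} (hg : ∀ i, DifferentiableOn ℂ (g i) V) {Q x : ℝ}
  (hQ : ∀ M : ℕ, ∑ i, ∑ m ∈ Finset.Icc 1 M, (m : ℝ) / 2 * ‖fc R (g i) m‖ ^ 2 ≤ Q) (hx1 : x < 1)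
  {w : ℂ} (hw : ‖w / R‖ ^ 2 ≤ x)

include hR hV hVo hg hQ hx1 hw

theorem norm_lt : ‖w‖ < R := by
  rw [norm_div, Complex.norm_real, Real.norm_of_nonneg hR.le] at hw
  have h1 : (‖w‖ / R) ^ 2 < 1 := lt_of_le_of_lt hw hx1
  have h2 : ‖w‖ / R < 1 := by
    by_contra h
    rw [not_lt] at h
    nlinarith
  rwa [div_lt_one hR] at h2

theorem fluct_le : ∑ i, ‖g i w - g i 0‖ ^ 2 ≤ 2 * Q * (x / (1 - x) ^ 2) := by
  have hwR := norm_lt hR hV hVo hg hQ hx1 hw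
  refine vec_le (A := fun i m => fc R (g i) m) (z := w / R) hw hx1 hQ
    (e := fun m => if m = 0 then 0 else 1) (fun m => by split_ifs <;> norm_num)
    (fun m hm => ?_) (fun i => ?_) (by simp)
  · rw [if_neg (by omega)]
    exact_mod_cast hm
  · have h1 := hasSum_fc hR hV (hg i) hwR
    have h2 := hasSum_fc hR hV (hg i) (w := 0) (by rw [norm_zero]; exact hR)
    have h3 := h1.sub h2
    have e : (fun m : ℕ => (((if m = 0 then 0 else 1 : ℝ)) : ℂ) * fc R (g i) m * (w / R) ^ m) =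
        fun n : ℕ => fc R (g i) n * (w / R) ^ n - fc R (g i) n * (0 / R) ^ n := by
      funext m
      by_cases hm : m = 0
      · subst hm
        simp
      · rw [if_neg hm, zero_div, zero_pow hm]
        simp
    rw [e]
    exact h3

theorem deriv_le : ∑ i, ‖w * deriv (g i) w‖ ^ 2 ≤ 2 * Q * (x / (1 - x) ^ 2) := by
  have hwR := norm_lt hR hV hVo hg hQ hx1 hw
  refine vec_le (A := fun i m => fc R (g i) m) (z := w / R) hw hx1 hQ
    (e := fun m => m) (fun m => Nat.cast_nonneg m) (fun m _ => le_rfl) (fun i => ?_) (by simp)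
  have hd : DifferentiableOn ℂ (fun w => w * deriv (g i) w) V :=
    differentiableOn_id.mul ((hg i).deriv hVo)
  have h1 := hasSum_fc hR hV hd hwR
  simp only [fc_mul_deriv hV hR (hg i) hVo] at h1
  simpa using h1

end

end Pool.Agent.J4H54.CV
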