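import Pool.Agent.J4H54.CV.Hyp
import Pool.Agent.J4H54.KT.Cplx
import Pool.Agent.N686.DI.Int2
set_option autoImplicit false

/-!
The critical values of polynomials whose complex roots have mutual distances at least `1`.
-/

namespace Pool.Agent.J4H54.CV

open Finset

open Pool.Agent.J4H54.KT (card_disc prod_ite_const)

open Pool.Agent.N686.DI (sum_inv_eq_zero)

theorem crit_sep {m : ℕ} (hm : 1 ≤ m) {a : Fin (m + 1) → ℂ}
    (h : ∀ i k, i ≠ k → 1 ≤ ‖a i - a k‖) {ξ : ℂ}
    (hξ : (Polynomial.derivative (∏ i, (Polynomial.X - Polynomial.C (a i)))).eval ξ = 0)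
    (i j : Fin (m + 1)) :
    ‖a i - a j‖ * (2 ^ (m - 37) / (2048 * m)) ≤ ‖∏ i, (ξ - a i)‖ := by
  classical
  have hinj : Function.Injective a := by
    intro i j hij
    by_contra hne
    have h1 := h i j hne
    rw [hij, sub_self, norm_zero] at h1
    linarith
  obtain ⟨h0, hsum⟩ := sum_inv_eq_zero a hinj hξ
  have hm0 : (0 : ℝ) < m := by exact_mod_cast hm
  set d : Fin (m + 1) → ℝ := fun i => ‖a i - ξ‖ with hd
  have hdx : ∀ i, ‖ξ - a i‖ = d i := fun i => norm_sub_rev _ _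
  have hd0 : ∀ i, 0 < d i := fun i => by
    rw [← hdx]
    exact norm_pos_iff.2 (h0 i)
  obtain ⟨i₀, -, hmin⟩ := exists_min_image univ d ⟨0, mem_univ _⟩
  have htri : ∀ k l, ‖a k - a l‖ ≤ d k + d l := by
    intro k l
    have e : a k - a l = (a k - ξ) - (a l - ξ) := by ring
    rw [e]
    exact norm_sub_le _ _
  have hhalf : ∀ l, l ≠ i₀ → 1 / 2 ≤ d l := by
    intro l hl
    have h1 := h l i₀ hl
    have h2 := htri l i₀
    have h3 := hmin l (mem_univ _)
    linarith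
  have hi₀ : 1 / (2 * m) ≤ d i₀ := by
    have h1 : (ξ - a i₀)⁻¹ = -∑ l ∈ univ.erase i₀, (ξ - a l)⁻¹ := by
      rw [← add_sum_erase _ _ (mem_univ i₀)] at hsum
      linear_combination hsum
    have h2 : (d i₀)⁻¹ ≤ ∑ l ∈ univ.erase i₀, (d l)⁻¹ := by
      rw [← hdx, ← norm_inv, h1, norm_neg]
      refine (norm_sum_le _ _).trans (le_of_eq (sum_congr rfl fun l _ => ?_))
      rw [norm_inv, hdx]
    have h3 : ∑ l ∈ univ.erase i₀, (d l)⁻¹ ≤ ∑ _l ∈ univ.erase i₀, (2 : ℝ) := by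
      refine sum_le_sum fun l hl => ?_
      rw [inv_le_comm₀ (hd0 l) (by norm_num)]
      have := hhalf l (ne_of_mem_erase hl)
      linarith
    rw [sum_const, card_erase_of_mem (mem_univ _), card_univ, Fintype.card_fin,
      Nat.add_sub_cancel, nsmul_eq_mul] at h3
    have h4 := h2.trans h3
    rw [inv_le_comm₀ (hd0 i₀) (by positivity)] at h4
    rw [one_div, mul_comm]
    exact h4
  obtain ⟨p, hp, hpd⟩ : ∃ p, p ≠ i₀ ∧ ‖a i - a j‖ / 2 ≤ d p := by
    have h1 := htri i j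
    have key : ∃ q, ‖a i - a j‖ / 2 ≤ d q := by
      by_contra hcon
      push Not at hcon
      have h2 := hcon i
      have h3 := hcon j
      linarith
    obtain ⟨q, hq⟩ := key
    by_cases hq0 : q = i₀
    · subst hq0
      obtain ⟨p, hp⟩ : ∃ p : Fin (m + 1), p ≠ q := by
        have : Nontrivial (Fin (m + 1)) := Fin.nontrivial_iff_two_le.2 (by omega)
        exact exists_ne q
      exact ⟨p, hp, hq.trans (hmin p (mem_univ _))⟩
    · exact ⟨q, hq0, hq⟩
  set s : Finset (Fin (m + 1)) := (univ.erase i₀).erase p with hs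
  have hscard : s.card + 2 = m + 1 := by
    rw [hs, card_erase_of_mem (mem_erase.2 ⟨hp, mem_univ _⟩), card_erase_of_mem (mem_univ _),
      card_univ, Fintype.card_fin]
    omega
  have hS2 : (s.filter fun i => d i < 1).card ≤ 9 := by
    have h1 := card_disc h ξ 3
    norm_num at h1
    refine le_trans (card_le_card ?_) h1
    exact filter_subset_filter _ (subset_univ _)
  have hS3 : m ≤ (s.filter fun i => 2 ≤ d i).card + 37 := by
    have h1 := card_disc h ξ 6
    have h2 := card_filter_add_card_filter_not (s := s) (fun i => 2 ≤ d i)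
    have h3 : (s.filter fun i => ¬ 2 ≤ d i) ⊆ univ.filter fun i => ‖a i - ξ‖ < (6 : ℕ) / 3 := by
      intro k hk
      have h4 := (mem_filter.1 hk).2
      rw [not_le] at h4
      refine mem_filter.2 ⟨mem_univ _, ?_⟩
      norm_num
      exact h4
    have h5 := (card_le_card h3).trans h1
    omega
  have hprod : (1 / 2 : ℝ) ^ 9 * 2 ^ (m - 37) ≤ ∏ l ∈ s, d l := by
    have h1 : ∏ i ∈ s, ((if d i < 1 then (1 / 2 : ℝ) else 1) * (if 2 ≤ d i then 2 else 1)) ≤
        ∏ i ∈ s, d i := by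
      refine prod_le_prod (fun i _ => by positivity) fun i hi => ?_
      have h2 := hhalf i (ne_of_mem_erase (mem_of_mem_erase hi))
      split_ifs <;> linarith
    rw [prod_mul_distrib, prod_ite_const, prod_ite_const] at h1
    refine le_trans ?_ h1
    have g2 : (1 / 2 : ℝ) ^ 9 ≤ (1 / 2) ^ (s.filter fun i => d i < 1).card :=
      pow_le_pow_of_le_one (by norm_num) (by norm_num) hS2
    have g3 : (2 : ℝ) ^ (m - 37) ≤ 2 ^ (s.filter fun i => 2 ≤ d i).card :=
      pow_le_pow_right₀ (by norm_num) (by omega)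
    gcongr
  rw [norm_prod]
  simp only [hdx]
  rw [← mul_prod_erase univ d (mem_univ i₀),
    ← mul_prod_erase (univ.erase i₀) d (mem_erase.2 ⟨hp, mem_univ _⟩)]
  have h5 : ‖a i - a j‖ * (2 ^ (m - 37) / (2048 * m)) =
      1 / (2 * m) * (‖a i - a j‖ / 2 * ((1 / 2 : ℝ) ^ 9 * 2 ^ (m - 37))) := by
    field_simp
    norm_num
  rw [h5]
  have := norm_nonneg (a i - a j)
  have := hd0 i₀
  have := hd0 p
  refine mul_le_mul hi₀ ?_ (by positivity) (hd0 i₀).le
  exact mul_le_mul hpd hprod (by positivity) (hd0 p).le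

theorem const_le {m : ℕ} (hm : 1 ≤ m) :
    ((m : ℝ) + 8) * (4096 * m) ^ 2 ≤ (1048576 * 2 ^ (m - 37)) ^ 2 := by
  rcases Nat.lt_or_ge m 38 with h | h
  · have h1 : m - 37 = 0 := by omega
    rw [h1]
    have h2 : (m : ℝ) ≤ 37 := by exact_mod_cast (by omega : m ≤ 37)
    have h3 : (0 : ℝ) ≤ m := Nat.cast_nonneg m
    have h4 : (m : ℝ) ^ 2 ≤ 37 ^ 2 := pow_le_pow_left₀ h3 h2 2
    have h5 : ((m : ℝ) + 8) * m ^ 2 ≤ 45 * 37 ^ 2 := by
      refine mul_le_mul (by linarith) h4 (by positivity) (by norm_num)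
    nlinarith
  · obtain ⟨k, rfl⟩ : ∃ k, m = k + 37 := ⟨m - 37, by omega⟩
    rw [Nat.add_sub_cancel]
    have key : ∀ k : ℕ, ((k : ℝ) + 45) * (k + 37) ^ 2 ≤ 65536 * (2 ^ k) ^ 2 := by
      intro k
      induction k with
      | zero => norm_num
      | succ k ih =>
        have e : (65536 : ℝ) * (2 ^ (k + 1)) ^ 2 = 4 * (65536 * (2 ^ k) ^ 2) := by ring
        rw [e]
        push_cast
        have hk : (0 : ℝ) ≤ k := Nat.cast_nonneg k
        nlinarith [mul_nonneg hk hk, mul_nonneg (mul_nonneg hk hk) hk]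
    have h1 := key k
    push_cast
    nlinarith

theorem sep_fac {m : ℕ} (hm : 1 ≤ m) (a : Fin (m + 1) → ℂ)
    (h : ∀ i k, i ≠ k → 1 ≤ ‖a i - a k‖) :
    ∃ Δ R L : ℝ, (∀ i j, ‖a i - a j‖ ≤ Δ) ∧ 1 ≤ Δ ∧ 0 < R ∧ 1 ≤ L ∧
      (∀ ξ : ℂ, (Polynomial.derivative (∏ i, (Polynomial.X - Polynomial.C (a i)))).eval ξ = 0 →
        R < ‖∏ i, (ξ - a i)‖) ∧
      (∃ d, (∀ i j, i ≠ j → Real.log ‖a i - a j‖ ≤ d) ∧ (m + 1) * d - Real.log R ≤ L) ∧
      Real.sqrt L * Real.sqrt Δ ≤ 1048576 * R := by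
  obtain ⟨⟨i₀, j₀⟩, -, hmax⟩ := exists_max_image (univ : Finset (Fin (m + 1) × Fin (m + 1)))
    (fun p => ‖a p.1 - a p.2‖) ⟨(0, 0), mem_univ _⟩
  set Δ : ℝ := ‖a i₀ - a j₀‖ with hΔ
  have hle : ∀ i j, ‖a i - a j‖ ≤ Δ := fun i j => hmax (i, j) (mem_univ _)
  have h1 : 1 ≤ Δ := by
    have h01 : (0 : Fin (m + 1)) ≠ ⟨1, by omega⟩ := by
      intro h
      have := congrArg Fin.val h
      simp at this
    exact (h _ _ h01).trans (hle 0 ⟨1, by omega⟩)
  have hm1 : (1 : ℝ) ≤ m := by exact_mod_cast hm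
  set g : ℝ := 2 ^ (m - 37) / (2048 * m) with hg
  have hg0 : 0 < g := by positivity
  refine ⟨Δ, Δ * g / 2, (m + 8) * Δ, hle, h1, by positivity, by nlinarith, fun ξ hξ => ?_,
    ⟨Real.log Δ, fun i j hij => ?_, ?_⟩, ?_⟩
  · refine lt_of_lt_of_le ?_ (crit_sep hm h hξ i₀ j₀)
    rw [← hΔ, ← hg]
    have : 0 < Δ * g := by positivity
    linarith
  · exact Real.log_le_log (lt_of_lt_of_le one_pos (h i j hij)) (hle i j)
  · have h2 : Real.log (Δ * g / 2) = Real.log Δ + Real.log (g / 2) := by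
      rw [mul_div_assoc, Real.log_mul (by positivity) (by positivity)]
    have h3 : -Real.log (g / 2) ≤ 12 * Real.log 2 + Real.log m := by
      have h4 : Real.log (1 / (4096 * m)) ≤ Real.log (g / 2) := by
        refine Real.log_le_log (by positivity) ?_
        rw [hg, div_div, div_le_div_iff₀ (by positivity) (by positivity)]
        have : (1 : ℝ) ≤ 2 ^ (m - 37) := one_le_pow₀ (by norm_num)
        nlinarith
      have h5 : Real.log (1 / (4096 * m)) = -(12 * Real.log 2 + Real.log m) := by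
        rw [one_div, Real.log_inv, Real.log_mul (by norm_num) (by positivity)]
        have : (4096 : ℝ) = 2 ^ 12 := by norm_num
        rw [this, Real.log_pow]
        push_cast
        ring
      rw [h5] at h4
      linarith
    have h6 := Real.log_two_lt_d9
    have h7 : Real.log m ≤ m - 1 := Real.log_le_sub_one_of_pos (by linarith)
    have h4 : Real.log Δ ≤ Δ - 1 := Real.log_le_sub_one_of_pos (by linarith)
    rw [h2]
    nlinarith
  · rw [← Real.sqrt_mul (by positivity)]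
    refine Real.sqrt_le_iff.2 ⟨by positivity, ?_⟩
    have h2 := const_le hm
    have h3 : (1048576 * (Δ * g / 2)) ^ 2 = Δ ^ 2 * ((1048576 * 2 ^ (m - 37)) ^ 2 /
        (4096 * m) ^ 2) := by
      rw [hg]
      field_simp
      norm_num
    rw [h3]
    have h4 : ((m : ℝ) + 8) ≤ (1048576 * 2 ^ (m - 37)) ^ 2 / (4096 * m) ^ 2 := by
      rw [le_div_iff₀ (by positivity)]
      exact h2
    have h5 : ((m : ℝ) + 8) * Δ * Δ = Δ ^ 2 * (m + 8) := by ring
    rw [h5]
    exact mul_le_mul_of_nonneg_left h4 (by positivity)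

end Pool.Agent.J4H54.CV
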