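import Pool.Agent.J4H54.CV.Core
set_option autoImplicit false

/-!
The total does not vanish.
-/

namespace Pool.Agent.J4H54.CV

open Finset

open Pool.Agent.J4H54.KT (om)

theorem pow_ge (m : ℕ) : (m : ℝ) / 2 * (9 / 4) ^ m ≤ 3 ^ m := by
  have h1 : (m : ℝ) / 2 ≤ (4 / 3) ^ m := by
    induction m with
    | zero => norm_num
    | succ m ih =>
      rcases Nat.lt_or_ge m 3 with h | h
      · interval_cases m <;> norm_num
      · have h3 : (3 : ℝ) ≤ m := by exact_mod_cast h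
        rw [pow_succ]
        push_cast
        nlinarith
  have h2 : (3 : ℝ) ^ m = (4 / 3) ^ m * (9 / 4) ^ m := by
    rw [← mul_pow]
    norm_num
  rw [h2]
  exact mul_le_mul_of_nonneg_right h1 (by positivity)

variable {n : ℕ} {r : Fin (n + 1) → ℕ} {S : (∀ l, Fin (r l + 1)) → ℝ}
  {β : ∀ l, Fin (r l + 1) → ℂ} {R : Fin (n + 1) → ℝ} {V : Fin (n + 1) → Set ℂ}
  {x : ∀ l, Fin (r l + 1) → ℂ → ℂ} {E : ∀ l, Fin (r l + 1) → Fin (r l + 1) → ℂ → ℂ}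
  (h : ∀ l, Fac (β l) (R l) (V l) (x l) (E l)) {W : Fin (n + 1) → ℝ → ℂ}
  {ρ : Fin (n + 1) → ℝ} (hW : ∀ l, Wp (W l) (ρ l) (om l)) (hρ : ∀ l, ρ l ≤ R l / 3)
  {L : Fin (n + 1) → ℝ} {k₀ k₁ : Fin (n + 1)} (hk : k₀ ≠ k₁)
  (hL : 3 ^ (n + 1) * (∏ l ∈ (univ.erase k₀).erase k₁, Real.sqrt (L l)) * ∏ l, (ρ l / R l) ≤ 1)

include h hW hρ hk hL

theorem total_ne {c : ∀ l, Fin (r l + 1) → ℝ} (hc : ∀ l, ∑ i, c l i ^ 2 = 1)
    (hb : ∀ x, |TT S x| ≤ |TT S c| * ∏ l, nn (x l)) (hc0 : ∀ l, ∑ i, c l i = 0)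
    (hs : TT S c ≠ 0) (hQL : ∀ l, QF (E l) (R l) (c l) ≤ L l) :
    ∑ i, S i * ∑ j : (∀ l, Fin (r l + 1)), (∏ l, c l (j l)) * PR β x W i j ≠ 0 := by
  have hR : ∀ l, 0 < R l := fun l => (h l).pos
  have hρ0 : ∀ l, 0 < ρ l := fun l => (hW l).pos
  set θ : Fin (n + 1) → ℝ := fun l => ρ l / R l with hθ
  have hθ0 : ∀ l, 0 < θ l := fun l => div_pos (hρ0 l) (hR l)
  have hθ3 : ∀ l, θ l ≤ 1 / 3 := fun l => by
    simp only [hθ]
    rw [div_le_iff₀ (hR l)]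
    linarith [hρ l]
  have hρR : ∀ l, ρ l ≤ R l := fun l => by
    have := hρ l
    have := hR l
    linarith
  set Q : Fin (n + 1) → ℝ := fun l => QF (E l) (R l) (c l) with hQ
  have hQ0 : ∀ l, 0 ≤ Q l := fun l => (h l).QF_nonneg (hc0 l)
  have hest := main_est h hW hρR (y := fun l => θ l ^ 2) (fun l => le_rfl)
    (fun l => by nlinarith [hθ0 l, hθ3 l]) hc hb hc0
  -- the factors of the error
  have hfac : ∀ l, Real.sqrt 2 * Real.sqrt (2 * QF (E l) (R l) (c l) *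
      (θ l ^ 2 / (1 - θ l ^ 2) ^ 2)) ≤ 9 / 4 * θ l * Real.sqrt (Q l) := by
    intro l
    have h1 := hθ0 l
    have h2 := hθ3 l
    have h3 : 0 < 1 - θ l ^ 2 := by nlinarith
    rw [← Real.sqrt_mul (by norm_num)]
    have e : 2 * (2 * QF (E l) (R l) (c l) * (θ l ^ 2 / (1 - θ l ^ 2) ^ 2)) =
        (2 * θ l / (1 - θ l ^ 2)) ^ 2 * Q l := by
      simp only [hQ]
      field_simp
    rw [e, Real.sqrt_mul (sq_nonneg _), Real.sqrt_sq (by positivity)]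
    refine mul_le_mul_of_nonneg_right ?_ (Real.sqrt_nonneg _)
    rw [div_le_iff₀ h3]
    nlinarith [mul_pos h1 h1]
  have hprod : ∏ l, (Real.sqrt 2 * Real.sqrt (2 * QF (E l) (R l) (c l) *
      (θ l ^ 2 / (1 - θ l ^ 2) ^ 2))) ≤ (9 / 4) ^ (n + 1) * (∏ l, θ l) * ∏ l, Real.sqrt (Q l) := by
    refine (prod_le_prod (fun l _ => by positivity) fun l _ => hfac l).trans (le_of_eq ?_)
    rw [prod_mul_distrib, prod_mul_distrib, prod_const, card_univ, Fintype.card_fin]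
  have hk1 : k₁ ∈ univ.erase k₀ := mem_erase.2 ⟨hk.symm, mem_univ _⟩
  have hsplit : ∏ l, Real.sqrt (Q l) = Real.sqrt (Q k₀) * (Real.sqrt (Q k₁) *
      ∏ l ∈ (univ.erase k₀).erase k₁, Real.sqrt (Q l)) := by
    rw [mul_prod_erase _ (fun l => Real.sqrt (Q l)) hk1,
      mul_prod_erase univ (fun l => Real.sqrt (Q l)) (mem_univ k₀)]
  have hAM : Real.sqrt (Q k₀) * Real.sqrt (Q k₁) ≤ (Q k₀ + Q k₁) / 2 := by
    have h1 := Real.sq_sqrt (hQ0 k₀)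
    have h2 := Real.sq_sqrt (hQ0 k₁)
    nlinarith [sq_nonneg (Real.sqrt (Q k₀) - Real.sqrt (Q k₁))]
  have hPL : ∏ l ∈ (univ.erase k₀).erase k₁, Real.sqrt (Q l) ≤
      ∏ l ∈ (univ.erase k₀).erase k₁, Real.sqrt (L l) :=
    prod_le_prod (fun l _ => Real.sqrt_nonneg _) fun l _ => Real.sqrt_le_sqrt (hQL l)
  set P := ∏ l ∈ (univ.erase k₀).erase k₁, Real.sqrt (L l) with hP
  have hP0 : 0 ≤ P := prod_nonneg fun l _ => Real.sqrt_nonneg _
  set q := ∏ l, θ l with hq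
  have hq0 : 0 < q := prod_pos fun l _ => hθ0 l
  have hsum2 : Q k₀ + Q k₁ ≤ ∑ l, Q l := by
    rw [← add_sum_erase _ _ (mem_univ k₀), ← add_sum_erase _ _ hk1]
    have := sum_nonneg (s := (univ.erase k₀).erase k₁) fun l _ => hQ0 l
    linarith
  have hbound : (n + 1) * ∏ l, (Real.sqrt 2 * Real.sqrt (2 * QF (E l) (R l) (c l) *
      (θ l ^ 2 / (1 - θ l ^ 2) ^ 2))) ≤ ∑ l, Q l := by
    have h1 : ∏ l, Real.sqrt (Q l) ≤ (Q k₀ + Q k₁) / 2 * P := by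
      rw [hsplit, ← mul_assoc]
      refine mul_le_mul hAM hPL (prod_nonneg fun l _ => Real.sqrt_nonneg _) ?_
      have := hQ0 k₀
      have := hQ0 k₁
      positivity
    have h2 : (9 / 4) ^ (n + 1) * q * ∏ l, Real.sqrt (Q l) ≤
        (9 / 4) ^ (n + 1) * q * ((Q k₀ + Q k₁) / 2 * P) :=
      mul_le_mul_of_nonneg_left h1 (by positivity)
    have h3 := pow_ge (n + 1)
    push_cast at h3
    have h01 : 0 ≤ Q k₀ + Q k₁ := add_nonneg (hQ0 _) (hQ0 _)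
    calc (n + 1) * ∏ l, (Real.sqrt 2 * Real.sqrt (2 * QF (E l) (R l) (c l) *
          (θ l ^ 2 / (1 - θ l ^ 2) ^ 2))) ≤
          (n + 1) * ((9 / 4) ^ (n + 1) * q * ((Q k₀ + Q k₁) / 2 * P)) :=
          mul_le_mul_of_nonneg_left (hprod.trans h2) (by positivity)
      _ = ((n + 1 : ℝ) / 2 * (9 / 4) ^ (n + 1)) * (P * q) * (Q k₀ + Q k₁) := by ring
      _ ≤ 3 ^ (n + 1) * (P * q) * (Q k₀ + Q k₁) := by
          refine mul_le_mul_of_nonneg_right ?_ h01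
          exact mul_le_mul_of_nonneg_right h3 (by positivity)
      _ = (3 ^ (n + 1) * P * q) * (Q k₀ + Q k₁) := by ring
      _ ≤ 1 * (Q k₀ + Q k₁) := mul_le_mul_of_nonneg_right hL h01
      _ ≤ ∑ l, Q l := by linarith
  -- the main term
  have hQρ : ∀ l, QF (E l) (ρ l) (c l) = Q l + (Real.log (R l) - Real.log (ρ l)) := by
    intro l
    simp only [hQ]
    rw [QF_eq, QF_eq, hc]
    ring
  have hlog : ∀ l, 0 < Real.log (R l) - Real.log (ρ l) := fun l => by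
    rw [sub_pos]
    refine Real.log_lt_log (hρ0 l) ?_
    have := hρ l
    have := hR l
    linarith
  have hmain : ∑ l, Q l < ∑ l, QF (E l) (ρ l) (c l) := by
    simp only [hQρ, sum_add_distrib]
    have : 0 < ∑ l, (Real.log (R l) - Real.log (ρ l)) :=
      sum_pos (fun l _ => hlog l) ⟨k₀, mem_univ _⟩
    linarith
  intro h0
  rw [h0, zero_add] at hest
  set s := TT S c with hsdef
  set T' := ∑ l, QF (E l) (ρ l) (c l) with hT
  have hsum0 : 0 ≤ ∑ l, Q l := sum_nonneg fun l _ => hQ0 l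
  have hπ := Real.pi_pos
  have hs0 : 0 < |s| := abs_pos.2 hs
  rw [abs_mul, abs_mul, abs_of_pos (by positivity : (0 : ℝ) < (2 * Real.pi) ^ n),
    abs_of_pos (hsum0.trans_lt hmain)] at hest
  have h1 : (n + 1 : ℝ) * ((2 * Real.pi) ^ n * (|s| * ∏ l, (Real.sqrt 2 *
      Real.sqrt (2 * QF (E l) (R l) (c l) * (θ l ^ 2 / (1 - θ l ^ 2) ^ 2))))) =
      (2 * Real.pi) ^ n * |s| * ((n + 1) * ∏ l, (Real.sqrt 2 *
      Real.sqrt (2 * QF (E l) (R l) (c l) * (θ l ^ 2 / (1 - θ l ^ 2) ^ 2)))) := by ring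
  rw [h1] at hest
  have h2 : (2 * Real.pi) ^ n * |s| * ((n + 1) * ∏ l, (Real.sqrt 2 *
      Real.sqrt (2 * QF (E l) (R l) (c l) * (θ l ^ 2 / (1 - θ l ^ 2) ^ 2)))) ≤
      (2 * Real.pi) ^ n * |s| * ∑ l, Q l := mul_le_mul_of_nonneg_left hbound (by positivity)
  have h3 : (2 * Real.pi) ^ n * |s| * ∑ l, Q l < (2 * Real.pi) ^ n * |s| * T' :=
    mul_lt_mul_of_pos_left hmain (by positivity)
  linarith

end Pool.Agent.J4H54.CV
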